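import Mathlib

/-!
# Tail sums

`tail k f` is `1` minus the sum of the `k` largest coordinates of `f`. For thresholds `r` with
`r 0 = 1`, `2 * r (k + 1) ≤ r k` the state of `f` is the set `{v | r k ≤ f v}`, where `k` is the
least number with `tail k f < r k`.
-/

set_option autoImplicit false

open Set

namespace Pool.Agent.ND

variable {V : Type}

/-- `f ≥ 0` is supported in `s` and has sum `1`. -/
structure IsPt (s : Finset V) (f : V → ℝ) : Prop where
  nonneg : ∀ v, 0 ≤ f v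
  supp : ∀ v, v ∉ s → f v = 0
  sum : ∑ v ∈ s, f v = 1

/-- The sum of the coordinates outside of `σ`. -/
noncomputable def gs (σ : Finset V) (f : V → ℝ) : ℝ := 1 - ∑ v ∈ σ, f v

/-- The tail sum. -/
noncomputable def tail (k : ℕ) (f : V → ℝ) : ℝ := ⨅ σ : {σ : Finset V // σ.card ≤ k}, gs σ.1 f

theorem IsPt.sum_le {s : Finset V} {f : V → ℝ} (h : IsPt s f) (σ : Finset V) :
    ∑ v ∈ σ, f v ≤ 1 := by
  classical
  have h1 : ∑ v ∈ σ, f v = ∑ v ∈ σ ∩ s, f v := by
    symm
    refine Finset.sum_subset Finset.inter_subset_left fun v hv hv' => ?_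
    exact h.supp v fun hvs => hv' (Finset.mem_inter.2 ⟨hv, hvs⟩)
  rw [h1, ← h.sum]
  exact Finset.sum_le_sum_of_subset_of_nonneg Finset.inter_subset_right fun v _ _ => h.nonneg v

theorem IsPt.gs_nonneg {s : Finset V} {f : V → ℝ} (h : IsPt s f) (σ : Finset V) : 0 ≤ gs σ f := by
  have := h.sum_le σ
  unfold gs; linarith

theorem IsPt.bdd {s : Finset V} {f : V → ℝ} (h : IsPt s f) (k : ℕ) :
    BddBelow (range fun σ : {σ : Finset V // σ.card ≤ k} => gs σ.1 f) :=
  ⟨0, by rintro _ ⟨σ, rfl⟩; exact h.gs_nonneg _⟩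

theorem IsPt.tail_le {s : Finset V} {f : V → ℝ} (h : IsPt s f) {k : ℕ} {σ : Finset V}
    (hσ : σ.card ≤ k) : tail k f ≤ gs σ f :=
  ciInf_le (h.bdd k) ⟨σ, hσ⟩

theorem IsPt.tail_nonneg {s : Finset V} {f : V → ℝ} (h : IsPt s f) (k : ℕ) : 0 ≤ tail k f :=
  have : Nonempty {σ : Finset V // σ.card ≤ k} := ⟨⟨∅, by simp⟩⟩
  le_ciInf fun σ => h.gs_nonneg _

/-- The tail sum is attained at a subset of the support. -/
theorem IsPt.exists_tail {s : Finset V} {f : V → ℝ} (h : IsPt s f) (k : ℕ) :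
    ∃ σ ⊆ s, σ.card ≤ k ∧ tail k f = gs σ f := by
  classical
  have hne : ((s.powerset).filter fun σ => σ.card ≤ k).Nonempty :=
    ⟨∅, by simp⟩
  obtain ⟨σ, hσ, hmin⟩ := Finset.exists_min_image _ (fun σ => gs σ f) hne
  rw [Finset.mem_filter, Finset.mem_powerset] at hσ
  refine ⟨σ, hσ.1, hσ.2, le_antisymm (h.tail_le hσ.2) ?_⟩
  have : Nonempty {σ : Finset V // σ.card ≤ k} := ⟨⟨∅, by simp⟩⟩
  refine le_ciInf fun τ => ?_
  have h1 : gs (τ.1 ∩ s) f = gs τ.1 f := by
    unfold gs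
    congr 1
    refine Finset.sum_subset Finset.inter_subset_left fun v hv hv' => ?_
    exact h.supp v fun hvs => hv' (Finset.mem_inter.2 ⟨hv, hvs⟩)
  rw [← h1]
  refine hmin _ ?_
  rw [Finset.mem_filter, Finset.mem_powerset]
  exact ⟨Finset.inter_subset_right,
    (Finset.card_le_card Finset.inter_subset_left).trans τ.2⟩

theorem IsPt.tail_zero {s : Finset V} {f : V → ℝ} (h : IsPt s f) : tail 0 f = 1 := by
  obtain ⟨σ, _, hc, he⟩ := h.exists_tail 0
  have : σ = ∅ := by
    rw [← Finset.card_eq_zero]; omega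
  rw [he, this]; simp [gs]

theorem IsPt.tail_big {s : Finset V} {f : V → ℝ} (h : IsPt s f) {k : ℕ} (hk : s.card ≤ k) :
    tail k f = 0 := by
  refine le_antisymm ?_ (h.tail_nonneg k)
  have := h.tail_le hk
  have h2 : gs s f = 0 := by unfold gs; rw [h.sum]; ring
  rw [h2] at this; exact this

theorem IsPt.tail_lip {s s' : Finset V} {f g : V → ℝ} (h : IsPt s f) (h' : IsPt s' g) {k : ℕ}
    {c : ℝ} (hc : ∀ v, |f v - g v| ≤ c) : |tail k f - tail k g| ≤ k * c := by
  have hgs : ∀ σ : Finset V, σ.card ≤ k → |gs σ f - gs σ g| ≤ k * c := by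
    intro σ hσ
    have h0 : 0 ≤ c := by
      rcases s.eq_empty_or_nonempty with he | ⟨v, _⟩
      · have := h.sum; rw [he] at this; simp at this
      · exact (abs_nonneg _).trans (hc v)
    have h1 : gs σ f - gs σ g = -∑ v ∈ σ, (f v - g v) := by
      unfold gs; rw [Finset.sum_sub_distrib]; ring
    rw [h1, abs_neg]
    calc |∑ v ∈ σ, (f v - g v)| ≤ ∑ v ∈ σ, |f v - g v| := Finset.abs_sum_le_sum_abs _ _
      _ ≤ ∑ _v ∈ σ, c := Finset.sum_le_sum fun v _ => hc v
      _ = σ.card * c := by simp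
      _ ≤ k * c := mul_le_mul_of_nonneg_right (by exact_mod_cast hσ) h0
  obtain ⟨σ, _, hσc, hσ⟩ := h.exists_tail k
  obtain ⟨τ, _, hτc, hτ⟩ := h'.exists_tail k
  have h1 := h'.tail_le hσc
  have h2 := h.tail_le hτc
  have h3 := abs_le.1 (hgs σ hσc)
  have h4 := abs_le.1 (hgs τ hτc)
  rw [abs_le]
  constructor <;> linarith

theorem gs_lip {f g : V → ℝ} {σ : Finset V} {k : ℕ} (hσ : σ.card ≤ k)
    {c : ℝ} (h0 : 0 ≤ c) (hc : ∀ v, |f v - g v| ≤ c) : |gs σ f - gs σ g| ≤ k * c := by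
  have h1 : gs σ f - gs σ g = -∑ v ∈ σ, (f v - g v) := by
    unfold gs; rw [Finset.sum_sub_distrib]; ring
  rw [h1, abs_neg]
  calc |∑ v ∈ σ, (f v - g v)| ≤ ∑ v ∈ σ, |f v - g v| := Finset.abs_sum_le_sum_abs _ _
    _ ≤ ∑ _v ∈ σ, c := Finset.sum_le_sum fun v _ => hc v
    _ = σ.card * c := by simp
    _ ≤ k * c := mul_le_mul_of_nonneg_right (by exact_mod_cast hσ) h0

/-- Tail sums do not depend on the names of the vertices. -/
theorem tail_transp_le {s s' : Finset V} {f g : V → ℝ} (h : IsPt s f) (h' : IsPt s' g)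
    {ψ : V → V} (hinj : Set.InjOn ψ {v | 0 < f v}) (hψ : ∀ v, 0 < f v → g (ψ v) = f v) (k : ℕ) :
    tail k g ≤ tail k f := by
  classical
  obtain ⟨σ, _, hσc, hσ⟩ := h.exists_tail k
  set σ' := σ.filter fun v => 0 < f v with hσ'
  have h1 : gs σ' f = gs σ f := by
    unfold gs
    congr 1
    refine Finset.sum_subset (Finset.filter_subset _ _) fun v hv hv' => ?_
    rw [hσ', Finset.mem_filter] at hv'
    have := h.nonneg v
    by_contra hne
    exact hv' ⟨hv, lt_of_le_of_ne this (Ne.symm hne)⟩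
  have h2 : gs (σ'.image ψ) g = gs σ' f := by
    unfold gs
    congr 1
    rw [Finset.sum_image]
    · refine Finset.sum_congr rfl fun v hv => ?_
      exact hψ v (Finset.mem_filter.1 hv).2
    · intro x hx y hy hxy
      exact hinj (Finset.mem_filter.1 hx).2 (Finset.mem_filter.1 hy).2 hxy
  rw [hσ, ← h1, ← h2]
  refine h'.tail_le (Finset.card_image_le.trans ?_)
  exact (Finset.card_le_card (Finset.filter_subset _ _)).trans hσc

theorem tail_transp {s s' : Finset V} {f g : V → ℝ} (h : IsPt s f) (h' : IsPt s' g)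
    {ψ : V → V} (hinj : Set.InjOn ψ {v | 0 < f v}) (hψ : ∀ v, 0 < f v → g (ψ v) = f v) (k : ℕ) :
    tail k g = tail k f := by
  classical
  refine le_antisymm (tail_transp_le h h' hinj hψ k) ?_
  -- the inverse bijection
  have hpos : ∀ u, 0 < g u → ∃ v, 0 < f v ∧ ψ v = u := by
    intro u hu
    by_contra hcon
    push Not at hcon
    set σ := s.filter fun v => 0 < f v with hσ
    have h1 : ∑ v ∈ σ, f v = 1 := by
      rw [← h.sum]
      refine Finset.sum_subset (Finset.filter_subset _ _) fun v hv hv' => ?_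
      rw [hσ, Finset.mem_filter] at hv'
      by_contra hne
      exact hv' ⟨hv, lt_of_le_of_ne (h.nonneg v) (Ne.symm hne)⟩
    have h2 : ∑ v ∈ σ.image ψ, g v = 1 := by
      rw [Finset.sum_image, ← h1]
      · refine Finset.sum_congr rfl fun v hv => ?_
        exact hψ v (Finset.mem_filter.1 hv).2
      · intro x hx y hy hxy
        exact hinj (Finset.mem_filter.1 hx).2 (Finset.mem_filter.1 hy).2 hxy
    have h3 : u ∉ σ.image ψ := by
      intro hu'
      obtain ⟨v, hv, hvu⟩ := Finset.mem_image.1 hu'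
      exact hcon v (Finset.mem_filter.1 hv).2 hvu
    have h4 := h'.sum_le (insert u (σ.image ψ))
    rw [Finset.sum_insert h3, h2] at h4
    linarith
  choose! φ hφ1 hφ2 using hpos
  refine tail_transp_le (ψ := φ) h' h ?_ ?_ k
  · intro x hx y hy hxy
    rw [← hφ2 x hx, ← hφ2 y hy, hxy]
  · intro u hu
    rw [← hψ _ (hφ1 u hu), hφ2 u hu]

/-- The tail sum is concave on affine paths. -/
theorem tail_concave {f : ℝ → V → ℝ} {a b : ℝ} (hpt : ∀ s ∈ Icc a b, ∃ σ : Finset V, IsPt σ (f s))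
    (haff : ∃ p q : V → ℝ, ∀ s ∈ Icc a b, ∀ v, f s v = p v + s * q v) (k : ℕ) :
    ConcaveOn ℝ (Icc a b) fun s => tail k (f s) := by
  obtain ⟨p, q, hpq⟩ := haff
  refine ⟨convex_Icc a b, ?_⟩
  intro x hx y hy α β hα hβ hαβ
  have hz : α • x + β • y ∈ Icc a b := convex_Icc a b hx hy hα hβ hαβ
  obtain ⟨sz, hsz⟩ := hpt _ hz
  obtain ⟨sx, hsx⟩ := hpt _ hx
  obtain ⟨sy, hsy⟩ := hpt _ hy
  obtain ⟨σ, _, hσc, hσ⟩ := hsz.exists_tail k
  simp only [smul_eq_mul] at *
  rw [hσ]
  have h1 := hsx.tail_le hσc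
  have h2 := hsy.tail_le hσc
  have h3 : gs σ (f (α * x + β * y)) = α * gs σ (f x) + β * gs σ (f y) := by
    unfold gs
    have e1 : ∑ v ∈ σ, f (α * x + β * y) v = α * ∑ v ∈ σ, f x v + β * ∑ v ∈ σ, f y v := by
      rw [Finset.mul_sum, Finset.mul_sum, ← Finset.sum_add_distrib]
      refine Finset.sum_congr rfl fun v _ => ?_
      rw [hpq _ hz, hpq _ hx, hpq _ hy]
      have : p v = (α + β) * p v := by rw [hαβ]; ring
      linear_combination this
    rw [e1]
    linear_combination -hαβ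
  rw [h3]
  exact add_le_add (mul_le_mul_of_nonneg_left h1 hα) (mul_le_mul_of_nonneg_left h2 hβ)

/-- Threshold sequences. -/
structure IsThr (r : ℕ → ℝ) : Prop where
  zero : r 0 = 1
  pos : ∀ k, 0 < r k
  two : ∀ k, 2 * r (k + 1) ≤ r k

/-- The level of the state. -/
noncomputable def lev (r : ℕ → ℝ) (f : V → ℝ) : ℕ := sInf {k | tail k f < r k}

theorem lev_spec {r : ℕ → ℝ} (hr : IsThr r) {s : Finset V} {f : V → ℝ} (h : IsPt s f) :
    tail (lev r f) f < r (lev r f) := by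
  have : (({k | tail k f < r k}) : Set ℕ).Nonempty :=
    ⟨s.card, by simp only [mem_ofPred_eq]; rw [h.tail_big le_rfl]; exact hr.pos _⟩
  exact Nat.sInf_mem this

theorem lev_min {r : ℕ → ℝ} {f : V → ℝ} {k : ℕ} (hk : k < lev r f) : r k ≤ tail k f := by
  have := Nat.notMem_of_lt_sInf hk
  simpa using this

theorem lev_le {r : ℕ → ℝ} (hr : IsThr r) {s : Finset V} {f : V → ℝ} (h : IsPt s f) :
    lev r f ≤ s.card :=
  Nat.sInf_le (by simp only [mem_ofPred_eq]; rw [h.tail_big le_rfl]; exact hr.pos _)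

/-- Every `σ` with at most `k` elements and with a small complement is the state. -/
theorem mem_state {r : ℕ → ℝ} (hr : IsThr r) {s : Finset V} {f : V → ℝ} (h : IsPt s f)
    {σ : Finset V} (hσc : σ.card ≤ lev r f) (hσ : gs σ f < r (lev r f)) (v : V) :
    v ∈ σ ↔ r (lev r f) ≤ f v := by
  classical
  constructor
  · intro hv
    have hc : 0 < σ.card := Finset.card_pos.2 ⟨v, hv⟩
    obtain ⟨k, hk⟩ : ∃ k, lev r f = k + 1 := ⟨lev r f - 1, by omega⟩
    have h1 : r k ≤ tail k f := lev_min (by omega)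
    have h2 : tail k f ≤ gs (σ.erase v) f := h.tail_le (by
      rw [Finset.card_erase_of_mem hv]; omega)
    have h3 : gs (σ.erase v) f = gs σ f + f v := by
      unfold gs
      have := Finset.sum_erase_add σ f hv
      linarith
    have h4 := hr.two k
    rw [hk] at hσ ⊢
    linarith
  · intro hv
    by_contra hne
    have h1 := h.sum_le (insert v σ)
    rw [Finset.sum_insert hne] at h1
    unfold gs at hσ
    linarith

/-- The state. -/
theorem exists_state {r : ℕ → ℝ} (hr : IsThr r) {s : Finset V} {f : V → ℝ} (h : IsPt s f) :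
    ∃ σ ⊆ s, σ.Nonempty ∧ σ.card ≤ lev r f ∧ gs σ f = tail (lev r f) f ∧
      ∀ v, v ∈ σ ↔ r (lev r f) ≤ f v := by
  obtain ⟨σ, hσs, hσc, hσ⟩ := h.exists_tail (lev r f)
  have h1 := lev_spec hr h
  refine ⟨σ, hσs, ?_, hσc, hσ.symm, mem_state hr h hσc (by rw [← hσ]; exact h1)⟩
  rw [Finset.nonempty_iff_ne_empty]
  intro he
  have hge : ∀ k, r k ≤ 1 := by
    intro k
    induction k with
    | zero => rw [hr.zero]
    | succ k ih => have := hr.two k; have := hr.pos (k + 1); linarith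
  have h2 : gs σ f = 1 := by rw [he]; simp [gs]
  rw [hσ, h2] at h1
  exact absurd (hge (lev r f)) (not_le.2 h1)

/-- Same truth values of `tail k < r k` imply the same level. -/
theorem lev_congr {r : ℕ → ℝ} {f g : V → ℝ} (h : ∀ k, tail k f < r k ↔ tail k g < r k) :
    lev r f = lev r g := by
  unfold lev
  congr 1
  ext k
  exact h k

/-- Stability of the state. -/
theorem state_congr {r : ℕ → ℝ} (hr : IsThr r) {s s' : Finset V} {f g : V → ℝ} (h : IsPt s f)
    (h' : IsPt s' g) (hk : ∀ k, tail k f < r k ↔ tail k g < r k) {c : ℝ} (h0 : 0 ≤ c)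
    (hc : ∀ v, |f v - g v| ≤ c)
    (hlt : tail (lev r f) f + lev r f * c < r (lev r f)) (v : V) :
    r (lev r f) ≤ f v ↔ r (lev r g) ≤ g v := by
  obtain ⟨σ, _, _, hσc, hσ, hmem⟩ := exists_state hr h
  have hl := lev_congr hk
  rw [← hmem v]
  refine mem_state hr h' (by rw [← hl]; exact hσc) ?_ v
  rw [← hl]
  have h1 := abs_le.1 (gs_lip hσc h0 hc)
  rw [← hσ] at hlt
  linarith

end Pool.Agent.ND
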