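import Pool.Agent.Lib.MP_98022b_nd.Count

/-!
# Piecewise concave functions and random thresholds
-/

set_option autoImplicit false

open Set

namespace Pool.Agent.ND

/-- `f` is `L`-Lipschitz on `[0, T]` and concave on each of the `P` pieces. -/
structure Pcc (P : ℕ) (T L : ℝ) (t : ℕ → ℝ) (f : ℝ → ℝ) : Prop where
  mono : ∀ i < P, t i ≤ t (i + 1)
  t0 : t 0 = 0
  tP : t P = T
  lip : ∀ s ∈ Icc 0 T, ∀ s' ∈ Icc 0 T, |f s - f s'| ≤ L * |s - s'|
  conc : ∀ i < P, ConcaveOn ℝ (Icc (t i) (t (i + 1))) f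

theorem mono_le {P : ℕ} {t : ℕ → ℝ} (h : ∀ i < P, t i ≤ t (i + 1)) :
    ∀ i j, i ≤ j → j ≤ P → t i ≤ t j := by
  intro i j hij
  induction j, hij using Nat.le_induction with
  | base => intro _; exact le_rfl
  | succ j hij ih => intro hj; exact (ih (by omega)).trans (h j (by omega))

theorem exists_piece {P : ℕ} {T : ℝ} {t : ℕ → ℝ} (h0 : t 0 = 0) (hP : t P = T) (hPpos : 0 < P)
    {s : ℝ} (hs : s ∈ Icc 0 T) : ∃ i < P, s ∈ Icc (t i) (t (i + 1)) := by
  classical
  have hex : ∃ i, s ≤ t (i + 1) ∧ i < P := ⟨P - 1, by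
    rw [Nat.sub_add_cancel hPpos, hP]; exact hs.2, by omega⟩
  have hspec := Nat.find_spec hex
  set i := Nat.find hex with hi
  refine ⟨i, hspec.2, ?_, hspec.1⟩
  rcases Nat.eq_zero_or_pos i with h | h
  · rw [h, h0]; exact hs.1
  · have hm : i - 1 < i := by omega
    have := Nat.find_min hex hm
    push Not at this
    by_contra hlt
    push Not at hlt
    have h3 : s ≤ t (i - 1 + 1) := by
      rw [Nat.sub_add_cancel h]; exact hlt.le
    have := this h3
    omega

theorem Pcc.sub {P : ℕ} {T L : ℝ} {t : ℕ → ℝ} {f : ℝ → ℝ} (h : Pcc P T L t f) {i : ℕ}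
    (hi : i < P) : Icc (t i) (t (i + 1)) ⊆ Icc 0 T := by
  intro s hs
  refine ⟨?_, ?_⟩
  · have := mono_le h.mono 0 i (by omega) (by omega)
    rw [h.t0] at this; exact this.trans hs.1
  · have := mono_le h.mono (i + 1) P (by omega) le_rfl
    rw [h.tP] at this; exact hs.2.trans this

theorem Pcc.exists_max {P : ℕ} {T L : ℝ} {t : ℕ → ℝ} {f : ℝ → ℝ} (h : Pcc P T L t f) {i : ℕ}
    (hi : i < P) : ∃ m ∈ Icc (t i) (t (i + 1)), ∀ s ∈ Icc (t i) (t (i + 1)), f s ≤ f m := by
  have hc : ContinuousOn f (Icc (t i) (t (i + 1))) := by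
    have : LipschitzOnWith (Real.toNNReal L) f (Icc (t i) (t (i + 1))) := by
      refine LipschitzOnWith.of_dist_le_mul fun x hx y hy => ?_
      rw [Real.dist_eq, Real.dist_eq]
      refine (h.lip x (h.sub hi hx) y (h.sub hi hy)).trans ?_
      refine mul_le_mul_of_nonneg_right ?_ (abs_nonneg _)
      exact Real.le_coe_toNNReal L
    exact this.continuousOn
  have hne : (Icc (t i) (t (i + 1))).Nonempty := nonempty_Icc.2 (h.mono i hi)
  obtain ⟨m, hm, hmax⟩ := isCompact_Icc.exists_isMaxOn hne hc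
  exact ⟨m, hm, fun s hs => hmax hs⟩

/-- One function: pairs of bad times at a distance between `δ` and `4 * δ` force the threshold to be
near one of `2 * P + 1` values. -/
theorem single {P : ℕ} {T L : ℝ} {t : ℕ → ℝ} {f : ℝ → ℝ} (h : Pcc P T L t f) (hP : 0 < P)
    {δ e w : ℝ} (hδ : 0 < δ) (he : 0 ≤ e) (hL : 0 ≤ L) (hw1 : e + 4 * L * δ ≤ w)
    (hw2 : 2 * e * T ≤ (w - e) * δ) :
    ∃ A : Finset ℝ, A.card ≤ 2 * P + 1 ∧ ∀ r, (∀ a ∈ A, w ≤ |r - a|) →
      ∀ s ∈ Icc 0 T, ∀ s' ∈ Icc 0 T, |f s - r| < e → |f s' - r| < e → δ < s' - s →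
        s' - s < 4 * δ → False := by
  classical
  choose! m hm hmax using fun (i : ℕ) (hi : i < P) => h.exists_max hi
  refine ⟨(Finset.range (P + 1)).image (fun i => f (t i)) ∪
    (Finset.range P).image (fun i => f (m i)), ?_, ?_⟩
  · refine (Finset.card_union_le _ _).trans ?_
    have h1 := Finset.card_image_le (s := Finset.range (P + 1)) (f := fun i => f (t i))
    have h2 := Finset.card_image_le (s := Finset.range P) (f := fun i => f (m i))
    rw [Finset.card_range] at h1 h2
    omega
  · intro r hr s hs s' hs' hfs hfs' h1 h2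
    have hT : 0 ≤ T := hs.1.trans hs.2
    -- a point `x` of `[s, s']` has `f x` near `r`
    have hmid : ∀ x, s ≤ x → x ≤ s' → |r - f x| < w := by
      intro x hx hx'
      have hxT : x ∈ Icc (0 : ℝ) T := ⟨hs.1.trans hx, hx'.trans hs'.2⟩
      have h3 := h.lip x hxT s hs
      have h4 : |x - s| < 4 * δ := by rw [abs_of_nonneg (by linarith)]; linarith
      have h5 : |r - f x| ≤ |f s - r| + |f x - f s| := by
        rw [abs_sub_comm (f s) r, abs_sub_comm (f x) (f s)]
        have := abs_add_le (r - f s) (f s - f x)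
        have h6 : r - f s + (f s - f x) = r - f x := by ring
        rw [h6] at this; exact this
      have h6 : L * |x - s| ≤ L * (4 * δ) := mul_le_mul_of_nonneg_left h4.le hL
      have : |r - f x| < e + 4 * L * δ := by
        calc |r - f x| ≤ |f s - r| + |f x - f s| := h5
          _ < e + L * (4 * δ) := by
              have := h3.trans h6
              linarith
          _ = e + 4 * L * δ := by ring
      exact this.trans_le hw1
    obtain ⟨i, hi, hsi⟩ := exists_piece h.t0 h.tP hP hs
    have hA1 : ∀ j ≤ P, w ≤ |r - f (t j)| := fun j hj => hr _ (Finset.mem_union_left _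
      (Finset.mem_image.2 ⟨j, Finset.mem_range.2 (by omega), rfl⟩))
    have hA2 : ∀ j < P, w ≤ |r - f (m j)| := fun j hj => hr _ (Finset.mem_union_right _
      (Finset.mem_image.2 ⟨j, Finset.mem_range.2 hj, rfl⟩))
    have hs'i : s' < t (i + 1) := by
      by_contra hcon
      push Not at hcon
      exact absurd (hA1 (i + 1) (by omega)) (not_le.2 (hmid _ hsi.2 hcon))
    have hs'I : s' ∈ Icc (t i) (t (i + 1)) := ⟨by linarith [hsi.1], hs'i.le⟩
    have hmi := hm i hi
    have hmT : m i ∈ Icc (0 : ℝ) T := h.sub hi hmi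
    rcases lt_or_ge (m i) s with hlt | hge
    · -- the maximum is on the left
      have hsl := (h.conc i hi).slope_anti_adjacent hmi hs'I hlt (by linarith : s < s')
      have h3 : f (m i) - f s ≤ (s - m i) * ((f s - f s') / (s' - s)) := by
        have hp : 0 < s - m i := by linarith
        have h4 : (f s' - f s) / (s' - s) * (s - m i) ≤ f s - f (m i) := by
          rw [le_div_iff₀ hp] at hsl; exact hsl
        have h5 : (s - m i) * ((f s - f s') / (s' - s)) =
            -((f s' - f s) / (s' - s) * (s - m i)) := by ring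
        rw [h5]; linarith
      have h4 : (f s - f s') / (s' - s) ≤ 2 * e / δ := by
        have h5 : f s - f s' ≤ 2 * e := by
          have := abs_lt.1 hfs; have := abs_lt.1 hfs'; linarith
        calc (f s - f s') / (s' - s) ≤ (2 * e) / (s' - s) :=
              div_le_div_of_nonneg_right h5 (by linarith)
          _ ≤ 2 * e / δ := div_le_div_of_nonneg_left (by linarith) hδ h1.le
      have h5 : f (m i) - f s ≤ T * (2 * e / δ) := by
        refine h3.trans ?_
        calc (s - m i) * ((f s - f s') / (s' - s)) ≤ (s - m i) * (2 * e / δ) :=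
              mul_le_mul_of_nonneg_left h4 (by linarith)
          _ ≤ T * (2 * e / δ) := by
              refine mul_le_mul_of_nonneg_right ?_ (by positivity)
              linarith [hs.2, hmT.1]
      have h6 : T * (2 * e / δ) ≤ w - e := by
        rw [← mul_div_assoc, div_le_iff₀ hδ]
        linarith
      have h7 : 0 ≤ f (m i) - f s := by linarith [hmax i hi s hsi]
      have h8 := hA2 i hi
      have h9 : |r - f (m i)| ≤ |f s - r| + |f (m i) - f s| := by
        rw [abs_sub_comm (f s) r, abs_sub_comm (f (m i)) (f s)]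
        have := abs_add_le (r - f s) (f s - f (m i))
        have h6 : r - f s + (f s - f (m i)) = r - f (m i) := by ring
        rw [h6] at this; exact this
      rw [abs_of_nonneg h7] at h9
      linarith
    · rcases le_or_gt (m i) s' with hle | hgt
      · exact absurd (hA2 i hi) (not_le.2 (hmid _ hge hle))
      · -- the maximum is on the right
        have hsl := (h.conc i hi).slope_anti_adjacent hsi hmi (by linarith : s < s') hgt
        have hp : 0 < m i - s' := by linarith
        have h3 : f (m i) - f s' ≤ (m i - s') * ((f s' - f s) / (s' - s)) := by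
          rw [div_le_iff₀ hp] at hsl; linarith
        have h4 : (f s' - f s) / (s' - s) ≤ 2 * e / δ := by
          have h5 : f s' - f s ≤ 2 * e := by
            have := abs_lt.1 hfs; have := abs_lt.1 hfs'; linarith
          calc (f s' - f s) / (s' - s) ≤ (2 * e) / (s' - s) :=
                div_le_div_of_nonneg_right h5 (by linarith)
            _ ≤ 2 * e / δ := div_le_div_of_nonneg_left (by linarith) hδ h1.le
        have h5 : f (m i) - f s' ≤ T * (2 * e / δ) := by
          refine h3.trans ?_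
          calc (m i - s') * ((f s' - f s) / (s' - s)) ≤ (m i - s') * (2 * e / δ) :=
                mul_le_mul_of_nonneg_left h4 hp.le
            _ ≤ T * (2 * e / δ) := by
                refine mul_le_mul_of_nonneg_right ?_ (by positivity)
                linarith [hs'.1, hmT.2]
        have h6 : T * (2 * e / δ) ≤ w - e := by
          rw [← mul_div_assoc, div_le_iff₀ hδ]
          linarith
        have h7 : 0 ≤ f (m i) - f s' := by linarith [hmax i hi s' hs'I]
        have h8 := hA2 i hi
        have h9 : |r - f (m i)| ≤ |f s' - r| + |f (m i) - f s'| := by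
          rw [abs_sub_comm (f s') r, abs_sub_comm (f (m i)) (f s')]
          have := abs_add_le (r - f s') (f s' - f (m i))
          have h6 : r - f s' + (f s' - f (m i)) = r - f (m i) := by ring
          rw [h6] at this; exact this
        rw [abs_of_nonneg h7] at h9
        linarith

theorem cluster {E : Set ℝ} (hE : E.OrdConnected) {δ : ℝ} (hδ : 0 < δ)
    (h : ∀ s ∈ E, ∀ s' ∈ E, δ < s' - s → s' - s < 4 * δ → False) :
    ∀ x ∈ E, ∀ y ∈ E, |x - y| ≤ δ := by
  have key : ∀ x ∈ E, ∀ y ∈ E, x ≤ y → y - x ≤ δ := by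
    intro x hx y hy hxy
    by_contra hcon
    push Not at hcon
    rcases lt_or_ge (y - x) (4 * δ) with h1 | h1
    · exact h x hx y hy hcon h1
    · have hz : x + 2 * δ ∈ E := hE.out hx hy ⟨by linarith, by linarith⟩
      exact h x hx _ hz (by linarith) (by linarith)
  intro x hx y hy
  rcases le_total x y with hxy | hxy
  · rw [abs_sub_comm, abs_of_nonneg (by linarith)]; exact key x hx y hy hxy
  · rw [abs_of_nonneg (by linarith)]; exact key y hy x hx hxy

/-- The bad times of a good threshold lie in `2 * P` clusters. -/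
theorem double {P : ℕ} {T L : ℝ} {t : ℕ → ℝ} {f : ℝ → ℝ} (h : Pcc P T L t f) (hP : 0 < P)
    {δ e r : ℝ} (hδ : 0 < δ)
    (hg : ∀ s ∈ Icc 0 T, ∀ s' ∈ Icc 0 T, |f s - r| < e → |f s' - r| < e → δ < s' - s →
        s' - s < 4 * δ → False) :
    ∃ C : Finset ℝ, C.card ≤ 2 * P ∧ (∀ c ∈ C, c ∈ Icc 0 T) ∧
      ∀ s ∈ Icc 0 T, |f s - r| < e → ∃ c ∈ C, |s - c| ≤ δ := by
  classical
  choose! m hm hmax using fun (i : ℕ) (hi : i < P) => h.exists_max hi
  -- monotone on the two halves
  have hmon : ∀ i < P, ∀ x ∈ Icc (t i) (m i), ∀ y ∈ Icc (t i) (m i), x ≤ y → f x ≤ f y := by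
    intro i hi x hx y hy hxy
    have hxI : x ∈ Icc (t i) (t (i + 1)) := ⟨hx.1, hx.2.trans (hm i hi).2⟩
    have hyI : y ∈ Icc (t i) (t (i + 1)) := ⟨hy.1, hy.2.trans (hm i hi).2⟩
    by_contra hcon
    push Not at hcon
    rcases eq_or_lt_of_le hxy with h1 | h1
    · rw [h1] at hcon; exact lt_irrefl _ hcon
    · rcases eq_or_lt_of_le hy.2 with h2 | h2
      · rw [h2] at hcon; exact absurd (hmax i hi x hxI) (not_le.2 hcon)
      · have hsl := (h.conc i hi).slope_anti_adjacent hxI (hm i hi) h1 h2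
        have h3 : (f y - f x) / (y - x) < 0 := div_neg_of_neg_of_pos (by linarith) (by linarith)
        have h4 : (f (m i) - f y) / (m i - y) < 0 := hsl.trans_lt h3
        have h5 : 0 ≤ (f (m i) - f y) / (m i - y) :=
          div_nonneg (by linarith [hmax i hi y hyI]) (by linarith)
        linarith
  have hant : ∀ i < P, ∀ x ∈ Icc (m i) (t (i + 1)), ∀ y ∈ Icc (m i) (t (i + 1)), x ≤ y →
      f y ≤ f x := by
    intro i hi x hx y hy hxy
    have hxI : x ∈ Icc (t i) (t (i + 1)) := ⟨(hm i hi).1.trans hx.1, hx.2⟩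
    have hyI : y ∈ Icc (t i) (t (i + 1)) := ⟨(hm i hi).1.trans hy.1, hy.2⟩
    by_contra hcon
    push Not at hcon
    rcases eq_or_lt_of_le hxy with h1 | h1
    · rw [h1] at hcon; exact lt_irrefl _ hcon
    · rcases eq_or_lt_of_le hx.1 with h2 | h2
      · rw [← h2] at hcon; exact absurd (hmax i hi y hyI) (not_le.2 hcon)
      · have hsl := (h.conc i hi).slope_anti_adjacent (hm i hi) hyI h2 h1
        have h3 : 0 < (f y - f x) / (y - x) := div_pos (by linarith) (by linarith)
        have h4 : (f x - f (m i)) / (x - m i) ≤ 0 :=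
          div_nonpos_of_nonpos_of_nonneg (by linarith [hmax i hi x hxI]) (by linarith)
        linarith
  have hEl : ∀ i < P, ({s | s ∈ Icc (t i) (m i) ∧ |f s - r| < e}).OrdConnected := by
    intro i hi
    refine ⟨fun x hx y hy z hz => ?_⟩
    have hzI : z ∈ Icc (t i) (m i) := ⟨hx.1.1.trans hz.1, hz.2.trans hy.1.2⟩
    refine ⟨hzI, ?_⟩
    have h1 := hmon i hi x hx.1 z hzI hz.1
    have h2 := hmon i hi z hzI y hy.1 hz.2
    have h3 := abs_lt.1 hx.2
    have h4 := abs_lt.1 hy.2
    exact abs_lt.2 ⟨by linarith, by linarith⟩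
  have hEr : ∀ i < P, ({s | s ∈ Icc (m i) (t (i + 1)) ∧ |f s - r| < e}).OrdConnected := by
    intro i hi
    refine ⟨fun x hx y hy z hz => ?_⟩
    have hzI : z ∈ Icc (m i) (t (i + 1)) := ⟨hx.1.1.trans hz.1, hz.2.trans hy.1.2⟩
    refine ⟨hzI, ?_⟩
    have h1 := hant i hi x hx.1 z hzI hz.1
    have h2 := hant i hi z hzI y hy.1 hz.2
    have h3 := abs_lt.1 hx.2
    have h4 := abs_lt.1 hy.2
    exact abs_lt.2 ⟨by linarith, by linarith⟩
  -- choice of the centres
  set cl : ℕ → ℝ := fun i => if hne : ∃ s, s ∈ Icc (t i) (m i) ∧ |f s - r| < e then hne.choose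
    else t i with hcl
  set cr : ℕ → ℝ := fun i => if hne : ∃ s, s ∈ Icc (m i) (t (i + 1)) ∧ |f s - r| < e then
    hne.choose else t i with hcr
  refine ⟨(Finset.range P).image cl ∪ (Finset.range P).image cr, ?_, ?_, ?_⟩
  · refine (Finset.card_union_le _ _).trans ?_
    have h1 := Finset.card_image_le (s := Finset.range P) (f := cl)
    have h2 := Finset.card_image_le (s := Finset.range P) (f := cr)
    rw [Finset.card_range] at h1 h2
    omega
  · intro c hc
    rcases Finset.mem_union.1 hc with hc | hc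
    · obtain ⟨i, hi, rfl⟩ := Finset.mem_image.1 hc
      rw [Finset.mem_range] at hi
      simp only [hcl]
      split_ifs with hne
      · have := hne.choose_spec.1
        exact h.sub hi ⟨this.1, this.2.trans (hm i hi).2⟩
      · exact h.sub hi ⟨le_rfl, h.mono i hi⟩
    · obtain ⟨i, hi, rfl⟩ := Finset.mem_image.1 hc
      rw [Finset.mem_range] at hi
      simp only [hcr]
      split_ifs with hne
      · have := hne.choose_spec.1
        exact h.sub hi ⟨(hm i hi).1.trans this.1, this.2⟩
      · exact h.sub hi ⟨le_rfl, h.mono i hi⟩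
  · intro s hs hfs
    obtain ⟨i, hi, hsi⟩ := exists_piece h.t0 h.tP hP hs
    rcases le_total s (m i) with hle | hge
    · have hne : ∃ s, s ∈ Icc (t i) (m i) ∧ |f s - r| < e := ⟨s, ⟨hsi.1, hle⟩, hfs⟩
      refine ⟨cl i, Finset.mem_union_left _ (Finset.mem_image.2 ⟨i, Finset.mem_range.2 hi, rfl⟩),
        ?_⟩
      simp only [hcl, dif_pos hne]
      refine cluster (hEl i hi) hδ ?_ s ⟨⟨hsi.1, hle⟩, hfs⟩ _ hne.choose_spec
      intro x hx y hy hd1 hd2
      exact hg x (h.sub hi ⟨hx.1.1, hx.1.2.trans (hm i hi).2⟩) y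
        (h.sub hi ⟨hy.1.1, hy.1.2.trans (hm i hi).2⟩) hx.2 hy.2 hd1 hd2
    · have hne : ∃ s, s ∈ Icc (m i) (t (i + 1)) ∧ |f s - r| < e := ⟨s, ⟨hge, hsi.2⟩, hfs⟩
      refine ⟨cr i, Finset.mem_union_right _ (Finset.mem_image.2 ⟨i, Finset.mem_range.2 hi, rfl⟩),
        ?_⟩
      simp only [hcr, dif_pos hne]
      refine cluster (hEr i hi) hδ ?_ s ⟨⟨hge, hsi.2⟩, hfs⟩ _ hne.choose_spec
      intro x hx y hy hd1 hd2
      exact hg x (h.sub hi ⟨(hm i hi).1.trans hx.1.1, hx.1.2⟩) y
        (h.sub hi ⟨(hm i hi).1.trans hy.1.1, hy.1.2⟩) hx.2 hy.2 hd1 hd2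

/-- A separated grid: few values are killed. -/
theorem kill_count {N : ℕ} (rv : Fin N → ℝ) {w : ℝ}
    (sep : ∀ j j', j ≠ j' → 2 * w ≤ |rv j - rv j'|) (A : Finset ℝ) :
    (Finset.univ.filter fun x : Fin N => ∃ a ∈ A, |rv x - a| < w).card ≤ A.card := by
  classical
  have hex : ∀ x ∈ (Finset.univ.filter fun x : Fin N => ∃ a ∈ A, |rv x - a| < w),
      ∃ a ∈ A, |rv x - a| < w := fun x hx => (Finset.mem_filter.1 hx).2
  choose! g hgA hg using hex
  refine Finset.card_le_card_of_injOn g (fun x hx => hgA x hx) ?_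
  intro x hx y hy hxy
  by_contra hne
  have h1 := sep x y hne
  have h2 := hg x hx
  have h3 := hg y hy
  rw [hxy] at h2
  have h4 : |rv x - rv y| ≤ |rv x - g y| + |rv y - g y| := by
    rw [abs_sub_comm (rv y) (g y)]
    have := abs_add_le (rv x - g y) (g y - rv y)
    have h6 : rv x - g y + (g y - rv y) = rv x - rv y := by ring
    rw [h6] at this; exact this
  linarith

/-- The thresholds `r` are good for the functions `f` on the window `[0, T]`. -/
def Good {n : ℕ} (T δ e : ℝ) (f : Fin n → ℝ → ℝ) (r : Fin n → ℝ) : Prop :=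
  ∀ s ∈ Icc 0 T, ∀ s' ∈ Icc 0 T, ∀ k k', |f k s - r k| < e → |f k' s' - r k'| < e →
    |s - s'| ≤ δ ∨ 4 * δ ≤ |s - s'|

theorem bad_count {n P N : ℕ} {T L : ℝ} {t : ℕ → ℝ} {f : Fin n → ℝ → ℝ}
    (h : ∀ k, Pcc P T L t (f k)) (hP : 0 < P) {δ e w : ℝ} (hδ : 0 < δ) (he : 0 ≤ e) (hL : 0 ≤ L)
    (hw1 : e + 5 * L * δ ≤ w) (hw2 : 2 * e * T ≤ (w - e) * δ) (rv : Fin n → Fin N → ℝ)
    (sep : ∀ k j j', j ≠ j' → 2 * w ≤ |rv k j - rv k j'|) :
    ∃ B : Finset (Fin n → Fin N), B.card * N ≤ 2 * (n + 1) ^ 2 * (P + 1) * N ^ n ∧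
      ∀ v, v ∉ B → Good T δ e f fun k => rv k (v k) := by
  classical
  have hw1' : e + 4 * L * δ ≤ w := by
    have : 0 ≤ L * δ := by positivity
    linarith
  choose A hAc hA using fun k => single (h k) hP hδ he hL hw1' hw2
  set Sg : Fin n → Finset (Fin N) := fun k => Finset.univ.filter fun x : Fin N =>
    ∃ a ∈ A k, |rv k x - a| < w with hSg
  have hgood : ∀ k, ∀ x, x ∉ Sg k → ∀ s ∈ Icc 0 T, ∀ s' ∈ Icc 0 T, |f k s - rv k x| < e →
      |f k s' - rv k x| < e → δ < s' - s → s' - s < 4 * δ → False := by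
    intro k x hx
    simp only [hSg, Finset.mem_filter, Finset.mem_univ, true_and, not_exists, not_and,
      not_lt] at hx
    exact hA k _ hx
  choose! C hCc hCT hC using fun (k : Fin n) (x : Fin N) (hx : x ∉ Sg k) =>
    double (h k) hP hδ (hgood k x hx)
  set Sd : Fin n → Fin n → Fin N → Finset (Fin N) := fun k k' x =>
    if x ∈ Sg k then ∅ else Finset.univ.filter fun y : Fin N =>
      ∃ a ∈ (C k x).image (f k'), |rv k' y - a| < w with hSd
  have hSdc : ∀ k k' x, (Sd k k' x).card ≤ 2 * P := by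
    intro k k' x
    simp only [hSd]
    split_ifs with hx
    · simp
    · exact ((kill_count _ (sep k') _).trans Finset.card_image_le).trans (hCc k x hx)
  set B1 : Fin n → Finset (Fin n → Fin N) := fun k => Finset.univ.filter fun v => v k ∈ Sg k
    with hB1
  set B2 : Fin n × Fin n → Finset (Fin n → Fin N) := fun p =>
    if p.1 = p.2 then ∅ else Finset.univ.filter fun v => v p.2 ∈ Sd p.1 p.2 (v p.1) with hB2
  have hB1c : ∀ k, (B1 k).card * N ≤ (2 * P + 1) * N ^ n := by
    intro k
    refine count_fiber (B1 k) k fun v => ?_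
    have : (Finset.univ.filter fun x : Fin N => Function.update v k x ∈ B1 k) = Sg k := by
      ext x; simp [hB1]
    rw [this]
    exact (kill_count _ (sep k) _).trans (hAc k)
  have hB2c : ∀ p, (B2 p).card * N ≤ (2 * P) * N ^ n := by
    rintro ⟨k, k'⟩
    by_cases hkk : k = k'
    · simp [hB2, hkk]
    · refine count_fiber (B2 (k, k')) k' fun v => ?_
      have : (Finset.univ.filter fun x : Fin N => Function.update v k' x ∈ B2 (k, k')) =
          Sd k k' (v k) := by
        ext x
        simp [hB2, hkk, Function.update_of_ne]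
      rw [this]
      exact hSdc _ _ _
  refine ⟨Finset.univ.biUnion B1 ∪ Finset.univ.biUnion B2, ?_, ?_⟩
  · have h1 : (Finset.univ.biUnion B1).card * N ≤ n * ((2 * P + 1) * N ^ n) := by
      refine (Nat.mul_le_mul_right _ Finset.card_biUnion_le).trans ?_
      rw [Finset.sum_mul]
      refine (Finset.sum_le_sum fun k _ => hB1c k).trans ?_
      simp
    have h2 : (Finset.univ.biUnion B2).card * N ≤ n * n * ((2 * P) * N ^ n) := by
      refine (Nat.mul_le_mul_right _ Finset.card_biUnion_le).trans ?_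
      rw [Finset.sum_mul]
      refine (Finset.sum_le_sum fun k _ => hB2c k).trans ?_
      simp
    calc (Finset.univ.biUnion B1 ∪ Finset.univ.biUnion B2).card * N ≤
        ((Finset.univ.biUnion B1).card + (Finset.univ.biUnion B2).card) * N :=
          Nat.mul_le_mul_right _ (Finset.card_union_le _ _)
      _ = (Finset.univ.biUnion B1).card * N + (Finset.univ.biUnion B2).card * N := by ring
      _ ≤ n * ((2 * P + 1) * N ^ n) + n * n * ((2 * P) * N ^ n) := by omega
      _ = (n * (2 * P + 1) + n * n * (2 * P)) * N ^ n := by ring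
      _ ≤ 2 * (n + 1) ^ 2 * (P + 1) * N ^ n := by
          refine Nat.mul_le_mul_right _ ?_
          nlinarith [Nat.zero_le n, Nat.zero_le P, Nat.zero_le (n * P), Nat.zero_le (n * n * P)]
  · intro v hv
    simp only [Finset.mem_union, Finset.mem_biUnion, Finset.mem_univ, true_and, not_or,
      not_exists] at hv
    obtain ⟨hv1, hv2⟩ := hv
    have hv1' : ∀ k, v k ∉ Sg k := fun k => by
      have := hv1 k
      simpa [hB1] using this
    have key : ∀ s ∈ Icc 0 T, ∀ s' ∈ Icc 0 T, ∀ k k', |f k s - rv k (v k)| < e →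
        |f k' s' - rv k' (v k')| < e → ¬ (δ < |s - s'| ∧ |s - s'| < 4 * δ) := by
      intro s hs s' hs' k k' h1 h2 ⟨h3, h4⟩
      by_cases hkk : k = k'
      · subst hkk
        rcases le_total s s' with hss | hss
        · rw [abs_sub_comm, abs_of_nonneg (by linarith)] at h3 h4
          exact hgood k _ (hv1' k) s hs s' hs' h1 h2 h3 h4
        · rw [abs_of_nonneg (by linarith)] at h3 h4
          exact hgood k _ (hv1' k) s' hs' s hs h2 h1 h3 h4
      · have h5 := hv2 (k, k')
        simp only [hB2, if_neg hkk, Finset.mem_filter, Finset.mem_univ, true_and] at h5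
        simp only [hSd, if_neg (hv1' k), Finset.mem_filter, Finset.mem_univ, true_and,
          not_exists, not_and, not_lt] at h5
        obtain ⟨c, hc, hsc⟩ := hC k (v k) (hv1' k) s hs h1
        have h6 := h5 (f k' c) (Finset.mem_image_of_mem _ hc)
        have hcT := hCT k (v k) (hv1' k) c hc
        have h7 := (h k').lip c hcT s' hs'
        have h8 : |c - s'| ≤ 5 * δ := by
          have := abs_add_le (c - s) (s - s')
          have h9 : c - s + (s - s') = c - s' := by ring
          rw [h9, abs_sub_comm c s] at this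
          linarith
        have h9 : L * |c - s'| ≤ L * (5 * δ) := mul_le_mul_of_nonneg_left h8 hL
        have h10 : |rv k' (v k') - f k' c| ≤ |f k' s' - rv k' (v k')| + |f k' c - f k' s'| := by
          rw [abs_sub_comm (f k' s') _, abs_sub_comm (f k' c) _]
          have := abs_add_le (rv k' (v k') - f k' s') (f k' s' - f k' c)
          have h6 : rv k' (v k') - f k' s' + (f k' s' - f k' c) = rv k' (v k') - f k' c := by ring
          rw [h6] at this; exact this
        linarith
    intro s hs s' hs' k k' h1 h2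
    have := key s hs s' hs' k k' h1 h2
    by_contra hcon
    push Not at hcon
    exact this ⟨hcon.1, hcon.2⟩

/-- The abstract index lemma: finitely many threshold vectors which are good for all members of a
family with few classes. -/
theorem index_abstract {Ω 𝒞 : Type} [Fintype 𝒞] {n P N K : ℕ} {T L : ℝ} (t : Ω → ℕ → ℝ)
    (f : Ω → Fin n → ℝ → ℝ) (cls : Ω → 𝒞)
    (h : ∀ ω k, Pcc P T L (t ω) (f ω k)) (hP : 0 < P) {δ e w : ℝ} (hδ : 0 < δ) (he : 0 ≤ e)
    (hL : 0 ≤ L) (hw1 : 2 * e + 5 * L * δ ≤ w) (hw2 : 4 * e * T ≤ (w - 2 * e) * δ)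
    (rv : Fin n → Fin N → ℝ) (sep : ∀ k j j', j ≠ j' → 2 * w ≤ |rv k j - rv k j'|)
    (hclose : ∀ ω ω', cls ω = cls ω' → ∀ k, ∀ s ∈ Icc 0 T, |f ω k s - f ω' k s| ≤ e)
    (hN : 0 < N) (hcard : Fintype.card 𝒞 * (2 * (n + 1) ^ 2 * (P + 1)) ^ K < N ^ K) :
    ∃ v : Fin K → Fin n → Fin N, ∀ ω, ∃ j, Good T δ e (f ω) fun k => rv k (v j k) := by
  classical
  have hbc : ∀ ω, ∃ B : Finset (Fin n → Fin N), B.card * N ≤
      2 * (n + 1) ^ 2 * (P + 1) * N ^ n ∧ ∀ v, v ∉ B → Good T δ (2 * e) (f ω)
        fun k => rv k (v k) := fun ω =>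
    bad_count (h ω) hP hδ (by linarith) hL hw1 (by linarith) rv sep
  choose B hBc hB using hbc
  set bad : 𝒞 → Finset (Fin n → Fin N) := fun c =>
    if hc : ∃ ω, cls ω = c then B hc.choose else ∅ with hbad
  have hR : Fintype.card (Fin n → Fin N) = N ^ n := by simp
  obtain ⟨v, hv⟩ := exists_tuple (I := 𝒞) (R := Fin n → Fin N) (N := N)
    (q := 2 * (n + 1) ^ 2 * (P + 1)) (K := K) bad (by
      intro c
      rw [hR]
      simp only [hbad]
      split_ifs with hc
      · exact hBc _
      · simp) (by rw [hR]; exact Nat.pow_pos hN) hcard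
  refine ⟨v, fun ω => ?_⟩
  obtain ⟨j, hj⟩ := hv (cls ω)
  have hc : ∃ ω', cls ω' = cls ω := ⟨ω, rfl⟩
  simp only [hbad, dif_pos hc] at hj
  have hg := hB _ _ hj
  refine ⟨j, fun s hs s' hs' k k' h1 h2 => ?_⟩
  refine hg s hs s' hs' k k' ?_ ?_
  · have h3 := hclose _ _ hc.choose_spec k s hs
    have h4 := abs_add_le (f hc.choose k s - f ω k s) (f ω k s - rv k (v j k))
    have h5 : f hc.choose k s - f ω k s + (f ω k s - rv k (v j k)) =
      f hc.choose k s - rv k (v j k) := by ring
    rw [h5] at h4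
    linarith
  · have h3 := hclose _ _ hc.choose_spec k' s' hs'
    have h4 := abs_add_le (f hc.choose k' s' - f ω k' s') (f ω k' s' - rv k' (v j k'))
    have h5 : f hc.choose k' s' - f ω k' s' + (f ω k' s' - rv k' (v j k')) =
      f hc.choose k' s' - rv k' (v j k') := by ring
    rw [h5] at h4
    linarith

end Pool.Agent.ND
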