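import Pool.Agent.Lib.MP_98022b_td.EucDefs
import Pool.Agent.Lib.MP_98022b_gln.GeoIface

/-!
# Windows of geodesics
-/

set_option autoImplicit false

open Set

namespace Pool.Agent.ND

open Pool.Agent.TD

/-- A window `γ|[0, T]` of a geodesic with unit speed with `P` affine pieces, the piece `i` lies in
the closed simplex `G i`; the inequality `cn` is the comparison inequality of a CAT(0) space. -/
structure Win {X V : Type} [MetricSpace X] (K : EComplex X V) (P : ℕ) (T : ℝ) where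
  γ : ℝ → X
  t : ℕ → ℝ
  G : ℕ → Finset V
  geod : ∀ s ∈ Icc 0 T, ∀ s' ∈ Icc 0 T, dist (γ s) (γ s') = |s - s'|
  mono : ∀ i < P, t i ≤ t (i + 1)
  t0 : t 0 = 0
  tP : t P = T
  face : ∀ i < P, ∀ s ∈ Icc (t i) (t (i + 1)), K.In (γ s) (G i)
  aff : ∀ i < P, AffOn (fun s => K.co (γ s)) (t i) (t (i + 1))
  cn : ∀ z, ∀ s ∈ Icc 0 T, T * dist z (γ s) ^ 2 ≤
    (T - s) * dist z (γ 0) ^ 2 + s * dist z (γ T) ^ 2 - s * (T - s) * T

/-- `w'` has the same type as `w`, and the ends have almost the same coordinates. -/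
def Same {X V : Type} [MetricSpace X] {K : EComplex X V} {P : ℕ} {T : ℝ} (R : ℕ)
    (w w' : Win K P T) : Prop :=
  ∃ ψ : V → V, (∀ i < P, Set.InjOn ψ (w'.G i)) ∧ (∀ i < P, ψ '' (w'.G i) = w.G i) ∧
    (∀ i < P, ∀ u ∈ w'.G i, ∀ v ∈ w'.G i, K.len (ψ u) (ψ v) = K.len u v) ∧
    (∀ v ∈ w'.G 0, |K.co (w.γ 0) (ψ v) - K.co (w'.γ 0) v| ≤ 1 / R) ∧
    (∀ v ∈ w'.G (P - 1), |K.co (w.γ T) (ψ v) - K.co (w'.γ T) v| ≤ 1 / R)

/-- The point `b` has the coordinates of `x` up to a bijection of the carriers. -/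
def Transp {X V : Type} [MetricSpace X] (K : EComplex X V) (x b : X) : Prop :=
  ∃ ψ : V → V, Set.InjOn ψ {v | 0 < K.co x v} ∧ ∀ v, 0 < K.co x v → K.co b (ψ v) = K.co x v

/-- The few pieces of geodesics (B4) and CAT(0) in the form used here. -/
def FewWin {X V : Type} [MetricSpace X] (K : EComplex X V) (geo : X → X → ℝ → X) : Prop :=
  ∃ M : ℕ, 0 < M ∧ ∀ (x y : X) (n : ℕ) (a b : ℝ), 0 ≤ a → a ≤ b → b ≤ dist x y → b - a ≤ n →
    ∃ w : Win K (M * (n + 1)) (b - a), ∀ s, w.γ s = Pool.Agent.GLN.endPt geo x y (a + s)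

end Pool.Agent.ND
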