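import Pool.Agent.Lib.MP_98022b_nd.Disc
import Pool.Agent.Lib.MP_98022b_b4.Few
import Pool.Agent.Lib.MP_98022b_td.EucLip

/-!
# The discretization of a CAT(0) Euclidean complex with finitely many shapes
-/

set_option autoImplicit false

namespace Pool.Agent.ND

open Pool.Agent.TD Pool.Agent.GLN

theorem exists_discQ {X V Γ : Type} [MetricSpace X] [CompleteSpace X] (hX : IsCAT0 X)
    (K : EComplex X V) (hfin : K.lens.Finite) {d : ℕ} (hd : ∀ s ∈ K.faces, s.card ≤ d + 1)
    [Group Γ] [MulAction Γ X] [MulAction Γ V]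
    (hco : ∀ (g : Γ) x v, K.co (g • x) (g • v) = K.co x v) :
    Nonempty (DiscQ Thr Γ X X (fun x y => ⌊dist x y⌋₊) (geo (X := X))) := by
  obtain ⟨L, hL, hlip, hdiam, _⟩ := EComplex.exists_lip (K := K) hX hfin hd
  exact ⟨discQ (Pool.Agent.BP.fewWin_of_cat0 hX K hfin hd) (by linarith) hlip hdiam (d := d + 1)
    (fun s hs => (hd s hs).trans (by omega)) (by omega) hfin hco⟩

end Pool.Agent.ND
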