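import Mathlib

/-!
# Counting threshold vectors

`R = Fin n → Fin N` is the grid of threshold vectors. A set of vectors which contains at most `c`
values of the coordinate `k` once the others are fixed has proportion at most `c / N`; if every
member of a finite family has a set of bad vectors of proportion at most `q / N`, then `K` vectors
can be chosen such that every member has a good one among them, as soon as `card * q ^ K < N ^ K`.
-/

set_option autoImplicit false

open Finset

namespace Pool.Agent.ND

/-- Fibre count. -/
theorem count_fiber {n N c : ℕ} (B : Finset (Fin n → Fin N)) (k : Fin n)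
    (h : ∀ v : Fin n → Fin N, (univ.filter fun x : Fin N => Function.update v k x ∈ B).card ≤ c) :
    B.card * N ≤ c * N ^ n := by
  classical
  set A : Finset ((Fin n → Fin N) × Fin N) :=
    univ.filter fun p => Function.update p.1 k p.2 ∈ B with hA
  have h1 : A.card = B.card * N := by
    have : A.card = (B ×ˢ (univ : Finset (Fin N))).card := by
      refine Finset.card_bij (fun p _ => (Function.update p.1 k p.2, p.1 k)) ?_ ?_ ?_
      · intro p hp
        simp only [hA, mem_filter, mem_univ, true_and] at hp
        simp [hp]
      · rintro ⟨v, x⟩ _ ⟨v', x'⟩ _ hh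
        simp only [Prod.mk.injEq] at hh
        obtain ⟨h1, h2⟩ := hh
        have hx : x = x' := by
          have := congrFun h1 k
          simpa using this
        have hv : v = v' := by
          funext j
          by_cases hj : j = k
          · subst hj; exact h2
          · have := congrFun h1 j
            simpa [Function.update_of_ne hj] using this
        simp [hx, hv]
      · rintro ⟨u, y⟩ hu
        simp only [mem_product, mem_univ, and_true] at hu
        refine ⟨(Function.update u k y, u k), ?_, ?_⟩
        · simp only [hA, mem_filter, mem_univ, true_and]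
          simpa using hu
        · simp
    rw [this, Finset.card_product]
    simp
  have h2 : A.card ≤ c * N ^ n := by
    have : A.card = ∑ v : Fin n → Fin N,
        (univ.filter fun x : Fin N => Function.update v k x ∈ B).card := by
      rw [hA, Finset.card_filter]
      rw [← Finset.univ_product_univ, Finset.sum_product]
      refine Finset.sum_congr rfl fun v _ => ?_
      rw [Finset.card_filter]
    rw [this]
    calc ∑ v : Fin n → Fin N, (univ.filter fun x : Fin N => Function.update v k x ∈ B).card
        ≤ ∑ _v : Fin n → Fin N, c := Finset.sum_le_sum fun v _ => h v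
      _ = c * N ^ n := by simp [mul_comm]
  omega

/-- Union bound for `K` independent vectors. -/
theorem exists_tuple {I R : Type} [Fintype I] [Fintype R] [DecidableEq R] {N q K : ℕ}
    (bad : I → Finset R) (hb : ∀ i, (bad i).card * N ≤ q * Fintype.card R)
    (hR : 0 < Fintype.card R)
    (hN : Fintype.card I * q ^ K < N ^ K) : ∃ v : Fin K → R, ∀ i, ∃ j, v j ∉ bad i := by
  classical
  by_contra hcon
  push Not at hcon
  have h1 : (univ : Finset (Fin K → R)) ⊆
      (univ : Finset I).biUnion fun i => Fintype.piFinset fun _ : Fin K => bad i := by
    intro v _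
    obtain ⟨i, hi⟩ := hcon v
    simp only [mem_biUnion, mem_univ, true_and, Fintype.mem_piFinset]
    exact ⟨i, hi⟩
  have h2 := Finset.card_le_card h1
  have h3 : (univ : Finset (Fin K → R)).card = Fintype.card R ^ K := by
    simp [Finset.card_univ]
  have h4 : ((univ : Finset I).biUnion fun i => Fintype.piFinset fun _ : Fin K => bad i).card ≤
      ∑ i : I, (bad i).card ^ K := by
    refine Finset.card_biUnion_le.trans (Finset.sum_le_sum fun i _ => ?_)
    simp [Fintype.card_piFinset]
  have h5 : Fintype.card R ^ K * N ^ K ≤ (∑ i : I, (bad i).card ^ K) * N ^ K :=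
    Nat.mul_le_mul_right _ (by rw [← h3]; exact h2.trans h4)
  have h6 : (∑ i : I, (bad i).card ^ K) * N ^ K ≤ Fintype.card I * q ^ K * Fintype.card R ^ K := by
    rw [Finset.sum_mul]
    calc ∑ i : I, (bad i).card ^ K * N ^ K ≤ ∑ _i : I, q ^ K * Fintype.card R ^ K := by
          refine Finset.sum_le_sum fun i _ => ?_
          rw [← Nat.mul_pow, ← Nat.mul_pow]
          exact Nat.pow_le_pow_left (hb i) K
      _ = Fintype.card I * q ^ K * Fintype.card R ^ K := by
          simp [mul_assoc]
  have h7 : 0 < Fintype.card R ^ K := Nat.pow_pos hR
  have h8 : Fintype.card I * q ^ K * Fintype.card R ^ K < N ^ K * Fintype.card R ^ K :=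
    Nat.mul_lt_mul_of_pos_right hN h7
  have h9 : Fintype.card R ^ K * N ^ K < N ^ K * Fintype.card R ^ K :=
    (h5.trans h6).trans_lt h8
  rw [mul_comm] at h9
  exact lt_irrefl _ h9

end Pool.Agent.ND
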