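import Pool.Agent.Lib.MP_98022b_nd.WinDefs

/-!
# Row NW1: few classes of windows
-/

set_option autoImplicit false

open Set

namespace Pool.Agent.ND

open Pool.Agent.TD

private theorem nw1_lab {V : Type} (s : Finset V) (v0 : V) (m : ℕ) (hm : 0 < m) (hs : s.card ≤ m) :
    ∃ (inv : Fin m → V) (lab : V → Fin m), ∀ v ∈ s, inv (lab v) = v := by
  classical
  refine ⟨fun a => if h : (a : ℕ) < s.card then (s.equivFin.symm ⟨a, h⟩ : V) else v0,
    fun v => if h : v ∈ s then ⟨s.equivFin ⟨v, h⟩, lt_of_lt_of_le (s.equivFin ⟨v, h⟩).2 hs⟩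
      else ⟨0, hm⟩, ?_⟩
  intro v hv
  simp only [dif_pos hv]
  rw [dif_pos (s.equivFin ⟨v, hv⟩).2]
  simp

private theorem nw1_enum {V : Type} (s : Finset V) (m : ℕ) (hs : s.card ≤ m) :
    ∃ e : Fin m → Option V, (∀ v ∈ s, ∃ j, e j = some v) ∧ ∀ j v, e j = some v → v ∈ s := by
  classical
  refine ⟨fun j => if h : (j : ℕ) < s.card then some (s.equivFin.symm ⟨j, h⟩ : V) else none, ?_, ?_⟩
  · intro v hv
    refine ⟨⟨s.equivFin ⟨v, hv⟩, lt_of_lt_of_le (s.equivFin ⟨v, hv⟩).2 hs⟩, ?_⟩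
    simp
  · intro j v hj
    simp only at hj
    by_cases h : (j : ℕ) < s.card
    · rw [dif_pos h] at hj
      have := Option.some.inj hj
      rw [← this]
      exact (s.equivFin.symm ⟨j, h⟩).2
    · rw [dif_neg h] at hj
      cases hj

private theorem nw1_le_one {X V : Type} [MetricSpace X] (K : EComplex X V) (x : X) (v : V) :
    K.co x v ≤ 1 := by
  obtain ⟨s, _, h1, h2⟩ := K.carrier x
  by_cases hv : v ∈ s
  · rw [← h2]
    exact Finset.single_le_sum (fun u _ => K.co_nonneg x u) hv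
  · have : ¬ 0 < K.co x v := fun h => hv ((h1 v).mp h)
    linarith

private theorem nw1_floor {R : ℕ} (hR : 0 < R) {x y : ℝ} (hx : 0 ≤ x) (hy : 0 ≤ y)
    (h : ⌊(R : ℝ) * x⌋₊ = ⌊(R : ℝ) * y⌋₊) : |x - y| ≤ 1 / R := by
  have hR' : (0 : ℝ) < R := by exact_mod_cast hR
  have h1 := Nat.floor_le (mul_nonneg hR'.le hx)
  have h2 := Nat.lt_floor_add_one ((R : ℝ) * x)
  have h3 := Nat.floor_le (mul_nonneg hR'.le hy)
  have h4 := Nat.lt_floor_add_one ((R : ℝ) * y)
  rw [h] at h1 h2
  rw [abs_le, le_div_iff₀ hR']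
  constructor
  · rw [neg_le_iff_add_nonneg, ← sub_nonneg]
    have : (x - y + 1 / R) * R = R * x - R * y + 1 := by field_simp
    have h5 : 0 ≤ (x - y + 1 / R) * R := by rw [this]; linarith
    have h6 : 0 ≤ x - y + 1 / R := by
      by_contra hc
      push Not at hc
      nlinarith
    linarith
  · linarith

private theorem nw1_card (d P R N : ℕ) (hP : 0 < P) (hN : 0 < N) :
    (2 ^ ((d + 1) * P)) ^ P * ((N ^ ((d + 1) * P)) ^ ((d + 1) * P) *
      ((((d + 1) * P) * (R + 1) + 1) ^ (d + 1) * (((d + 1) * P) * (R + 1) + 1) ^ (d + 1))) ≤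
      2 ^ (((d + 1) + N * (d + 1) ^ 2 + 2 * (d + 1) ^ 2) * P ^ 2) * (R + 1) ^ (2 * (d + 1)) := by
  set m := (d + 1) * P with hm
  have hmP : m ≤ (d + 1) * P ^ 2 := by
    rw [hm, pow_two]
    exact Nat.mul_le_mul_left _ (Nat.le_mul_of_pos_left P hP)
  have e1 : (2 ^ m) ^ P = 2 ^ ((d + 1) * P ^ 2) := by
    rw [← pow_mul, hm]
    congr 1
    ring
  have e2 : (N ^ m) ^ m ≤ 2 ^ (N * (d + 1) ^ 2 * P ^ 2) := by
    rw [← pow_mul]
    calc N ^ (m * m) ≤ (2 ^ N) ^ (m * m) := Nat.pow_le_pow_left (Nat.lt_two_pow_self).le _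
      _ = 2 ^ (N * (d + 1) ^ 2 * P ^ 2) := by
        rw [← pow_mul, hm]
        congr 1
        ring
  have e3 : (m * (R + 1) + 1) ^ (d + 1) ≤ 2 ^ ((d + 1) ^ 2 * P ^ 2) * (R + 1) ^ (d + 1) := by
    calc (m * (R + 1) + 1) ^ (d + 1) ≤ ((m + 1) * (R + 1)) ^ (d + 1) := by
          apply Nat.pow_le_pow_left
          nlinarith
      _ = (m + 1) ^ (d + 1) * (R + 1) ^ (d + 1) := Nat.mul_pow _ _ _
      _ ≤ (2 ^ m) ^ (d + 1) * (R + 1) ^ (d + 1) := by
          apply Nat.mul_le_mul_right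
          apply Nat.pow_le_pow_left
          exact Nat.lt_two_pow_self
      _ ≤ 2 ^ ((d + 1) ^ 2 * P ^ 2) * (R + 1) ^ (d + 1) := by
          apply Nat.mul_le_mul_right
          rw [← pow_mul]
          apply Nat.pow_le_pow_right (by norm_num)
          calc m * (d + 1) ≤ ((d + 1) * P ^ 2) * (d + 1) := Nat.mul_le_mul_right _ hmP
            _ = (d + 1) ^ 2 * P ^ 2 := by ring
  calc (2 ^ m) ^ P * ((N ^ m) ^ m * ((m * (R + 1) + 1) ^ (d + 1) * (m * (R + 1) + 1) ^ (d + 1)))
      ≤ 2 ^ ((d + 1) * P ^ 2) * (2 ^ (N * (d + 1) ^ 2 * P ^ 2) *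
        ((2 ^ ((d + 1) ^ 2 * P ^ 2) * (R + 1) ^ (d + 1)) *
          (2 ^ ((d + 1) ^ 2 * P ^ 2) * (R + 1) ^ (d + 1)))) := by
        rw [e1]
        exact Nat.mul_le_mul_left _ (Nat.mul_le_mul e2 (Nat.mul_le_mul e3 e3))
    _ = 2 ^ (((d + 1) + N * (d + 1) ^ 2 + 2 * (d + 1) ^ 2) * P ^ 2) * (R + 1) ^ (2 * (d + 1)) := by
        have h1 : ((d + 1) + N * (d + 1) ^ 2 + 2 * (d + 1) ^ 2) * P ^ 2 = (d + 1) * P ^ 2 +
          N * (d + 1) ^ 2 * P ^ 2 + (d + 1) ^ 2 * P ^ 2 + (d + 1) ^ 2 * P ^ 2 := by ring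
        have h2 : 2 * (d + 1) = (d + 1) + (d + 1) := by ring
        rw [h1, h2, pow_add 2, pow_add 2, pow_add 2, pow_add (R + 1)]
        ring

/-- NW1. Label the vertices of all `G i` (`i < P`, at most `m = (d + 1) * P` vertices) by `Fin m`; the
class consists of the images of the `G i`, the lengths of the edges between vertices of a common
`G i`, and of the floors of `R * coordinate` at the (at most `d + 1`) vertices of `G 0` and of
`G (P - 1)` together with their labels. -/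
theorem win_classes {X V : Type} [MetricSpace X] (K : EComplex X V) (d : ℕ)
    (hd : ∀ s ∈ K.faces, s.card ≤ d + 1) (hl : K.lens.Finite) :
    ∃ C : ℕ, ∀ (P R : ℕ) (T : ℝ), 0 < P → 0 < R → 0 ≤ T →
      ∃ (Cl : Type) (_ : Fintype Cl) (cls : Win K P T → Cl),
        Fintype.card Cl ≤ 2 ^ (C * P ^ 2) * (R + 1) ^ (2 * (d + 1)) ∧
        ∀ w w', cls w = cls w' → Same R w w' := by
  classical
  let F : Finset ℝ := insert 0 hl.toFinset
  have h0F : (0 : ℝ) ∈ F := Finset.mem_insert_self _ _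
  have hFpos : 0 < F.card := Finset.card_pos.mpr ⟨0, h0F⟩
  refine ⟨(d + 1) + F.card * (d + 1) ^ 2 + 2 * (d + 1) ^ 2, ?_⟩
  intro P R T hP hR _
  set m := (d + 1) * P with hm
  have hmpos : 0 < m := Nat.mul_pos (Nat.succ_pos d) hP
  -- the faces of a window
  have hface : ∀ w : Win K P T, ∀ i < P, w.G i ∈ K.faces := by
    intro w i hi
    exact (w.face i hi (w.t i) ⟨le_rfl, w.mono i hi⟩).1
  have hv0 : ∀ w : Win K P T, ∃ v0 : V, True := by
    intro w
    obtain ⟨s, _, h1, h2⟩ := K.carrier (w.γ 0)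
    rcases s.eq_empty_or_nonempty with h | ⟨v, _⟩
    · rw [h] at h2
      simp at h2
    · exact ⟨v, trivial⟩
  have hlab : ∀ w : Win K P T, ∃ (inv : Fin m → V) (lab : V → Fin m),
      ∀ i < P, ∀ v ∈ w.G i, inv (lab v) = v := by
    intro w
    obtain ⟨v0, _⟩ := hv0 w
    have hcard : ((Finset.range P).biUnion w.G).card ≤ m := by
      refine (Finset.card_biUnion_le_card_mul (Finset.range P) w.G (d + 1) ?_).trans ?_
      · intro i hi
        exact hd _ (hface w i (Finset.mem_range.mp hi))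
      · rw [Finset.card_range, hm, mul_comm]
    obtain ⟨inv, lab, h⟩ := nw1_lab ((Finset.range P).biUnion w.G) v0 m hmpos hcard
    refine ⟨inv, lab, fun i hi v hv => h v ?_⟩
    exact Finset.mem_biUnion.mpr ⟨i, Finset.mem_range.mpr hi, hv⟩
  choose inv lab hil using hlab
  have hP1 : P - 1 < P := Nat.sub_lt hP Nat.one_pos
  choose e0 he0 he0' using fun w : Win K P T => nw1_enum (w.G 0) (d + 1) (hd _ (hface w 0 hP))
  choose e1 he1 he1' using fun w : Win K P T =>
    nw1_enum (w.G (P - 1)) (d + 1) (hd _ (hface w (P - 1) hP1))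
  let fl : X → V → Fin (R + 1) := fun x v => ⟨⌊(R : ℝ) * K.co x v⌋₊, by
    have hR' : (0 : ℝ) < R := by exact_mod_cast hR
    have h1 : (R : ℝ) * K.co x v ≤ R := by
      have := nw1_le_one K x v
      nlinarith
    have h2 : ⌊(R : ℝ) * K.co x v⌋₊ ≤ R := by
      have := Nat.floor_le_floor h1
      rwa [Nat.floor_natCast] at this
    omega⟩
  have hfl : ∀ x y u v, fl x u = fl y v → |K.co x u - K.co y v| ≤ 1 / R := by
    intro x y u v h
    have h1 : ⌊(R : ℝ) * K.co x u⌋₊ = ⌊(R : ℝ) * K.co y v⌋₊ := by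
      have := congrArg Fin.val h
      exact this
    exact nw1_floor hR (K.co_nonneg x u) (K.co_nonneg y v) h1
  let cl : Win K P T → (Fin P → Finset (Fin m)) × (Fin m → Fin m → {x : ℝ // x ∈ F}) ×
      (Fin (d + 1) → Option (Fin m × Fin (R + 1))) × (Fin (d + 1) → Option (Fin m × Fin (R + 1))) :=
    fun w => (fun i => (w.G i).image (lab w),
      fun a b => if h : K.len (inv w a) (inv w b) ∈ F then ⟨_, h⟩ else ⟨0, h0F⟩,
      fun j => (e0 w j).map (fun v => (lab w v, fl (w.γ 0) v)),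
      fun j => (e1 w j).map (fun v => (lab w v, fl (w.γ T) v)))
  refine ⟨_, inferInstance, cl, ?_, ?_⟩
  · have h1 := nw1_card d P R F.card hP hFpos
    refine le_trans (le_of_eq ?_) h1
    simp only [Fintype.card_prod, Fintype.card_fun, Fintype.card_fin, Fintype.card_finset,
      Fintype.card_option, Fintype.card_coe]
    rw [← hm]
  · intro w w' hw
    have hS : ∀ i < P, (w.G i).image (lab w) = (w'.G i).image (lab w') := by
      intro i hi
      have := congrArg (fun c => c.1 ⟨i, hi⟩) hw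
      exact this
    have hL : ∀ a b, (if h : K.len (inv w a) (inv w b) ∈ F then (⟨_, h⟩ : {x : ℝ // x ∈ F}) else ⟨0, h0F⟩) =
        (if h : K.len (inv w' a) (inv w' b) ∈ F then (⟨_, h⟩ : {x : ℝ // x ∈ F}) else ⟨0, h0F⟩) := by
      intro a b
      have := congrArg (fun c => c.2.1 a b) hw
      exact this
    have hE0 : ∀ j, (e0 w j).map (fun v => (lab w v, fl (w.γ 0) v)) =
        (e0 w' j).map (fun v => (lab w' v, fl (w'.γ 0) v)) := by
      intro j
      have := congrArg (fun c => c.2.2.1 j) hw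
      exact this
    have hE1 : ∀ j, (e1 w j).map (fun v => (lab w v, fl (w.γ T) v)) =
        (e1 w' j).map (fun v => (lab w' v, fl (w'.γ T) v)) := by
      intro j
      have := congrArg (fun c => c.2.2.2 j) hw
      exact this
    have hinj : ∀ w : Win K P T, ∀ i < P, ∀ j < P, ∀ u ∈ w.G i, ∀ v ∈ w.G j,
        lab w u = lab w v → u = v := by
      intro w i hi j hj u hu v hv h
      rw [← hil w i hi u hu, ← hil w j hj v hv, h]
    -- `ψ` on the vertices of `w'`
    have hψ : ∀ i < P, ∀ v ∈ w'.G i, ∃ u ∈ w.G i, lab w u = lab w' v ∧ inv w (lab w' v) = u := by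
      intro i hi v hv
      have h1 : lab w' v ∈ (w.G i).image (lab w) := by
        rw [hS i hi]
        exact Finset.mem_image_of_mem _ hv
      obtain ⟨u, hu, huv⟩ := Finset.mem_image.mp h1
      refine ⟨u, hu, huv, ?_⟩
      rw [← huv]
      exact hil w i hi u hu
    have hlenF : ∀ w : Win K P T, ∀ i < P, ∀ u ∈ w.G i, ∀ v ∈ w.G i, K.len u v ∈ F := by
      intro w i hi u hu v hv
      by_cases huv : u = v
      · subst huv
        have : K.len u u = 0 := dist_self _
        rw [this]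
        exact h0F
      · apply Finset.mem_insert_of_mem
        rw [Set.Finite.mem_toFinset]
        exact ⟨w.G i, hface w i hi, u, hu, v, hv, huv, rfl⟩
    have ends : ∀ (x x' : X) (i : ℕ) (_ : i < P) (e e' : Fin (d + 1) → Option V),
        (∀ v ∈ w'.G i, ∃ j, e' j = some v) → (∀ j v, e j = some v → v ∈ w.G i) →
        (∀ j, (e j).map (fun v => (lab w v, fl x v)) = (e' j).map (fun v => (lab w' v, fl x' v))) →
        ∀ v ∈ w'.G i, |K.co x (inv w (lab w' v)) - K.co x' v| ≤ 1 / R := by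
      intro x x' i hi e e' he' he heq v hv
      obtain ⟨j, hj⟩ := he' v hv
      have h1 := heq j
      rw [hj] at h1
      simp only [Option.map_some, Option.map_eq_some_iff] at h1
      obtain ⟨u, hu, huv⟩ := h1
      have h2 : lab w u = lab w' v := congrArg Prod.fst huv
      have h3 : fl x u = fl x' v := congrArg Prod.snd huv
      rw [← h2, hil w i hi u (he j u hu)]
      exact hfl _ _ _ _ h3
    refine ⟨fun v => inv w (lab w' v), ?_, ?_, ?_, ?_, ?_⟩
    · intro i hi v hv v' hv' h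
      obtain ⟨u, hu, h1, h2⟩ := hψ i hi v hv
      obtain ⟨u', hu', h1', h2'⟩ := hψ i hi v' hv'
      simp only at h
      rw [h2, h2'] at h
      apply hinj w' i hi i hi v hv v' hv'
      rw [← h1, ← h1', h]
    · intro i hi
      ext u
      constructor
      · rintro ⟨v, hv, rfl⟩
        obtain ⟨u, hu, h1, h2⟩ := hψ i hi v hv
        simp only
        rw [h2]
        exact hu
      · intro hu
        have h1 : lab w u ∈ (w'.G i).image (lab w') := by
          rw [← hS i hi]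
          exact Finset.mem_image_of_mem _ hu
        obtain ⟨v, hv, hvu⟩ := Finset.mem_image.mp h1
        refine ⟨v, hv, ?_⟩
        simp only
        rw [hvu]
        exact hil w i hi u hu
    · intro i hi u hu v hv
      obtain ⟨u', hu', h1, h2⟩ := hψ i hi u hu
      obtain ⟨v', hv', h3, h4⟩ := hψ i hi v hv
      have h5 := hL (lab w' u) (lab w' v)
      rw [h2, h4, hil w' i hi u hu, hil w' i hi v hv] at h5
      rw [dif_pos (hlenF w i hi u' hu' v' hv'), dif_pos (hlenF w' i hi u hu v hv)] at h5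
      simp only
      rw [h2, h4]
      exact congrArg Subtype.val h5
    · exact ends _ _ 0 hP (e0 w) (e0 w') (he0 w') (he0' w) hE0
    · exact ends _ _ (P - 1) hP1 (e1 w) (e1 w') (he1 w') (he1' w) hE1

end Pool.Agent.ND
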