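import Pool.Agent.Lib.MP_98022b_nd.WinDefs

/-!
# Row NW2: windows of the same type are close
-/

set_option autoImplicit false

open Set

namespace Pool.Agent.ND

open Pool.Agent.TD

/-- `b` is the transplant of `x` along `ψ` -/
def Tr {X V : Type} [MetricSpace X] (K : EComplex X V) (ψ : V → V) (x b : X) : Prop :=
  (∀ v, 0 < K.co x v → K.co b (ψ v) = K.co x v) ∧ ∀ u, 0 < K.co b u → ∃ v, 0 < K.co x v ∧ ψ v = u

theorem Tr.unique {X V : Type} [MetricSpace X] {K : EComplex X V} {ψ : V → V} {x b b' : X}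
    (h : Tr K ψ x b) (h' : Tr K ψ x b') : b = b' := by
  apply K.inj
  funext u
  by_cases hu : ∃ v, 0 < K.co x v ∧ ψ v = u
  · obtain ⟨v, hv, rfl⟩ := hu
    rw [h.1 v hv, h'.1 v hv]
  · have h1 : ¬ 0 < K.co b u := fun hp => hu (h.2 u hp)
    have h2 : ¬ 0 < K.co b' u := fun hp => hu (h'.2 u hp)
    rw [le_antisymm (not_lt.mp h1) (K.co_nonneg b u), le_antisymm (not_lt.mp h2) (K.co_nonneg b' u)]

theorem sum_co_eq_one {X V : Type} [MetricSpace X] (K : EComplex X V) {x : X} {s : Finset V}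
    (hx : K.In x s) : ∑ v ∈ s, K.co x v = 1 := by
  obtain ⟨s', _, h1, h2⟩ := K.carrier x
  rw [← h2]
  symm
  apply Finset.sum_subset
  · intro v hv
    by_contra hv'
    have := (h1 v).mpr hv
    rw [hx.2 v hv'] at this
    exact lt_irrefl _ this
  · intro v _ hv
    by_contra hne
    exact hv ((h1 v).mp (lt_of_le_of_ne (K.co_nonneg x v) (Ne.symm hne)))

theorem exists_tr {X V : Type} [MetricSpace X] (K : EComplex X V) {ψ : V → V} {G' G : Finset V}
    (hG : G ∈ K.faces) (hinj : Set.InjOn ψ (G' : Set V)) (him : ψ '' (G' : Set V) = (G : Set V)) {x : X}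
    (hx : K.In x G') : ∃ b, K.In b G ∧ (∀ v ∈ G', K.co b (ψ v) = K.co x v) ∧ Tr K ψ x b := by
  classical
  have hsum := sum_co_eq_one K hx
  have himG : G'.image ψ = G := by
    rw [← Finset.coe_inj, Finset.coe_image]
    exact him
  let a : V → ℝ := fun u => ∑ v ∈ G', if ψ v = u then K.co x v else 0
  have ha0 : ∀ u, 0 ≤ a u := by
    intro u
    apply Finset.sum_nonneg
    intro v _
    split_ifs
    · exact K.co_nonneg x v
    · exact le_rfl
  have haG : ∀ u, u ∉ G → a u = 0 := by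
    intro u hu
    apply Finset.sum_eq_zero
    intro v hv
    rw [if_neg]
    intro h
    apply hu
    rw [← himG, Finset.mem_image]
    exact ⟨v, hv, h⟩
  have haψ : ∀ v ∈ G', a (ψ v) = K.co x v := by
    intro v hv
    simp only [a]
    rw [Finset.sum_eq_single v]
    · simp
    · intro v' hv' hne
      rw [if_neg]
      intro h
      exact hne (hinj hv' hv h)
    · intro h
      exact absurd hv h
  have hasum : ∑ u ∈ G, a u = 1 := by
    rw [← himG, Finset.sum_image (fun v hv v' hv' h => hinj hv hv' h), ← hsum]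
    exact Finset.sum_congr rfl haψ
  obtain ⟨b, hb⟩ := K.exists_pt G hG a ha0 haG hasum
  refine ⟨b, ⟨hG, fun v hv => by rw [hb]; exact haG v hv⟩, fun v hv => by rw [hb]; exact haψ v hv, ?_, ?_⟩
  · intro v hv
    rw [hb]
    apply haψ
    by_contra hv'
    rw [hx.2 v hv'] at hv
    exact lt_irrefl _ hv
  · intro u hu
    rw [hb] at hu
    have huG : u ∈ G := by
      by_contra hne
      rw [haG u hne] at hu
      exact lt_irrefl _ hu
    rw [← himG, Finset.mem_image] at huG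
    obtain ⟨v, hv, rfl⟩ := huG
    rw [haψ v hv] at hu
    exact ⟨v, hu, rfl⟩

theorem dist_tr {X V : Type} [MetricSpace X] (K : EComplex X V) {ψ : V → V} {G' G : Finset V}
    (hinj : Set.InjOn ψ (G' : Set V)) (him : ψ '' (G' : Set V) = (G : Set V))
    (hlen : ∀ u ∈ G', ∀ v ∈ G', K.len (ψ u) (ψ v) = K.len u v) {x y b b' : X} (hx : K.In x G')
    (hy : K.In y G') (hb : K.In b G) (hb' : K.In b' G) (h1 : ∀ v ∈ G', K.co b (ψ v) = K.co x v)
    (h2 : ∀ v ∈ G', K.co b' (ψ v) = K.co y v) : dist b b' = dist x y := by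
  classical
  have himG : G'.image ψ = G := by
    rw [← Finset.coe_inj, Finset.coe_image]
    exact him
  have hsq : dist b b' ^ 2 = dist x y ^ 2 := by
    rw [K.euclid G hb.1 b b' hb.2 hb'.2, K.euclid G' hx.1 x y hx.2 hy.2]
    congr 1
    rw [← himG, Finset.sum_image (fun v hv v' hv' h => hinj hv hv' h)]
    apply Finset.sum_congr rfl
    intro u hu
    rw [Finset.sum_image (fun v hv v' hv' h => hinj hv hv' h)]
    apply Finset.sum_congr rfl
    intro v hv
    rw [h1 u hu, h1 v hv, h2 u hu, h2 v hv]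
    have := hlen u hu v hv
    unfold EComplex.len at this
    rw [this]
  exact (sq_eq_sq₀ dist_nonneg dist_nonneg).mp hsq

theorem dist_le_of_co {X V : Type} [MetricSpace X] (K : EComplex X V) (d : ℕ)
    (hd : ∀ s ∈ K.faces, s.card ≤ d + 1) {L : ℝ} (hL0 : 0 ≤ L)
    (hL : ∀ s ∈ K.faces, ∀ u ∈ s, ∀ v ∈ s, K.len u v ≤ L) {G : Finset V} {x y : X} (hx : K.In x G)
    (hy : K.In y G) {e : ℝ} (he : 0 ≤ e) (h : ∀ v ∈ G, |K.co x v - K.co y v| ≤ e) :
    dist x y ≤ (d + 1) * L * e := by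
  have hsq : dist x y ^ 2 ≤ ((d + 1) * L * e) ^ 2 := by
    rw [K.euclid G hx.1 x y hx.2 hy.2]
    have hterm : ∀ u ∈ G, ∀ v ∈ G, -(L ^ 2 * e ^ 2) ≤
        (K.co x u - K.co y u) * (K.co x v - K.co y v) * dist (K.pos u) (K.pos v) ^ 2 := by
      intro u hu v hv
      have h1 : |(K.co x u - K.co y u) * (K.co x v - K.co y v)| ≤ e * e := by
        rw [abs_mul]
        exact mul_le_mul (h u hu) (h v hv) (abs_nonneg _) he
      have h2 : dist (K.pos u) (K.pos v) ^ 2 ≤ L ^ 2 :=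
        pow_le_pow_left₀ dist_nonneg (hL G hx.1 u hu v hv) 2
      have h3 : |(K.co x u - K.co y u) * (K.co x v - K.co y v) * dist (K.pos u) (K.pos v) ^ 2| ≤
          e * e * L ^ 2 := by
        rw [abs_mul, abs_of_nonneg (sq_nonneg (dist (K.pos u) (K.pos v)))]
        exact mul_le_mul h1 h2 (sq_nonneg _) (mul_nonneg he he)
      have h4 := (abs_le.mp h3).1
      nlinarith [h4]
    have hsum : -((G.card : ℝ) * (G.card * (L ^ 2 * e ^ 2))) ≤ ∑ u ∈ G, ∑ v ∈ G,
        (K.co x u - K.co y u) * (K.co x v - K.co y v) * dist (K.pos u) (K.pos v) ^ 2 := by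
      have : ∑ u ∈ G, ∑ v ∈ G, -(L ^ 2 * e ^ 2) ≤ ∑ u ∈ G, ∑ v ∈ G,
          (K.co x u - K.co y u) * (K.co x v - K.co y v) * dist (K.pos u) (K.pos v) ^ 2 :=
        Finset.sum_le_sum fun u hu => Finset.sum_le_sum fun v hv => hterm u hu v hv
      simp only [Finset.sum_const, nsmul_eq_mul] at this
      linarith
    have hcard : (G.card : ℝ) ≤ d + 1 := by exact_mod_cast hd G hx.1
    have hc0 : (0 : ℝ) ≤ G.card := by positivity
    have hLe : 0 ≤ L ^ 2 * e ^ 2 := by positivity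
    have h5 : (G.card : ℝ) * (G.card * (L ^ 2 * e ^ 2)) ≤ (d + 1) * ((d + 1) * (L ^ 2 * e ^ 2)) :=
      mul_le_mul hcard (mul_le_mul_of_nonneg_right hcard hLe) (mul_nonneg hc0 hLe) (by positivity)
    have h6 : 0 ≤ ((d : ℝ) + 1) * ((d + 1) * (L ^ 2 * e ^ 2)) := by positivity
    calc -(1 / 2) * ∑ u ∈ G, ∑ v ∈ G,
        (K.co x u - K.co y u) * (K.co x v - K.co y v) * dist (K.pos u) (K.pos v) ^ 2
        ≤ 1 / 2 * ((G.card : ℝ) * (G.card * (L ^ 2 * e ^ 2))) := by linarith
      _ ≤ (d + 1) * ((d + 1) * (L ^ 2 * e ^ 2)) := by linarith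
      _ = ((d + 1) * L * e) ^ 2 := by ring
  have h0 : 0 ≤ ((d : ℝ) + 1) * L * e := by positivity
  exact (pow_le_pow_iff_left₀ dist_nonneg h0 (by norm_num)).mp hsq

theorem exists_len_bound {X V : Type} [MetricSpace X] (K : EComplex X V) (hl : K.lens.Finite) :
    ∃ L : ℝ, 0 ≤ L ∧ ∀ s ∈ K.faces, ∀ u ∈ s, ∀ v ∈ s, K.len u v ≤ L := by
  obtain ⟨L, hL⟩ := hl.bddAbove
  refine ⟨max L 0, le_max_right _ _, ?_⟩
  intro s hs u hu v hv
  by_cases huv : u = v
  · subst huv
    unfold EComplex.len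
    rw [dist_self]
    exact le_max_right _ _
  · exact le_trans (hL ⟨s, hs, u, hu, v, hv, huv, rfl⟩) (le_max_left _ _)

theorem Win.mem_Icc {X V : Type} [MetricSpace X] {K : EComplex X V} {P : ℕ} {T : ℝ} (w : Win K P T) :
    ∀ i ≤ P, 0 ≤ w.t i := by
  intro i
  induction i with
  | zero => intro _; rw [w.t0]
  | succ i ih => intro hi; exact le_trans (ih (by omega)) (w.mono i (by omega))

/-- every time is in a piece -/
theorem Win.exists_piece {X V : Type} [MetricSpace X] {K : EComplex X V} {P : ℕ} {T : ℝ}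
    (w : Win K P T) (hP : 0 < P) {s : ℝ} (hs : s ∈ Icc 0 T) : ∃ i < P, s ∈ Icc (w.t i) (w.t (i + 1)) := by
  have key : ∀ k ≤ P, 0 < k → s ≤ w.t k → ∃ i < k, s ∈ Icc (w.t i) (w.t (i + 1)) := by
    intro k
    induction k with
    | zero => intro _ h _; exact absurd h (lt_irrefl 0)
    | succ k ih =>
      intro hk _ hsk
      by_cases h : w.t k ≤ s
      · exact ⟨k, Nat.lt_succ_self k, h, hsk⟩
      · have h' : s < w.t k := not_le.mp h
        have hk0 : 0 < k := by
          rcases Nat.eq_zero_or_pos k with h0 | h0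
          · subst h0
            rw [w.t0] at h'
            exact absurd hs.1 (not_le.mpr h')
          · exact h0
        obtain ⟨i, hi, hmem⟩ := ih (by omega) hk0 h'.le
        exact ⟨i, by omega, hmem⟩
  exact key P le_rfl hP (by rw [w.tP]; exact hs.2)

/-- NW2. The transplant `b s` of `w'.γ s`: the coordinate at `u` is the sum of the coordinates of
`w'.γ s` at the `v` in its carrier with `ψ v = u`. Distances in one simplex are preserved
(`euclid`), so `dist (b 0) (b s) ≤ s` and `dist (b s) (b T) ≤ T - s` by induction on the pieces;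
`dist (b 0) (w.γ 0) ≤ C / R` and `dist (b T) (w.γ T) ≤ C / R`; then `cn`. -/
theorem win_close {X V : Type} [MetricSpace X] (K : EComplex X V) (d : ℕ)
    (hd : ∀ s ∈ K.faces, s.card ≤ d + 1) (hl : K.lens.Finite) :
    ∃ C : ℕ, ∀ (P R : ℕ) (T : ℝ), 0 < P → 0 < R → 0 < T → ∀ w w' : Win K P T, Same R w w' →
      ∀ s ∈ Icc 0 T, ∃ b, Transp K (w'.γ s) b ∧
        dist b (w.γ s) ^ 2 ≤ (C / R : ℝ) * T + (C / R : ℝ) ^ 2 := by
  classical
  obtain ⟨L, hL0, hL⟩ := exists_len_bound K hl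
  obtain ⟨C, hC⟩ := exists_nat_ge (((d : ℝ) + 1) * L)
  refine ⟨C, ?_⟩
  intro P R T hP hR hT w w' hsame
  obtain ⟨ψ, hinj, him, hlen, he0, heT⟩ := hsame
  have hface : ∀ i < P, w.G i ∈ K.faces := by
    intro i hi
    exact (w.face i hi (w.t i) ⟨le_rfl, w.mono i hi⟩).1
  have hex : ∀ s ∈ Icc 0 T, ∃ b, Tr K ψ (w'.γ s) b := by
    intro s hs
    obtain ⟨i, hi, hsi⟩ := w'.exists_piece hP hs
    obtain ⟨b, _, _, hb⟩ := exists_tr K (hface i hi) (hinj i hi) (him i hi) (w'.face i hi s hsi)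
    exact ⟨b, hb⟩
  let B : ℝ → X := fun s => if h : ∃ b, Tr K ψ (w'.γ s) b then h.choose else w'.γ s
  have hB : ∀ s ∈ Icc 0 T, Tr K ψ (w'.γ s) (B s) := by
    intro s hs
    have h := hex s hs
    simp only [B]
    rw [dif_pos h]
    exact h.choose_spec
  have hTi : ∀ i ≤ P, w'.t i ≤ T := by
    have hmono' : ∀ j, j ≤ P → w'.t (P - j) ≤ T := by
      intro j
      induction j with
      | zero => intro _; rw [Nat.sub_zero, w'.tP]
      | succ j ih =>
        intro hj
        have h1 := w'.mono (P - (j + 1)) (by omega)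
        have h2 : P - (j + 1) + 1 = P - j := by omega
        rw [h2] at h1
        exact le_trans h1 (ih (by omega))
    intro i hi
    have := hmono' (P - i) (by omega)
    rwa [show P - (P - i) = i by omega] at this
  have hmem : ∀ i < P, ∀ s ∈ Icc (w'.t i) (w'.t (i + 1)), s ∈ Icc 0 T := by
    intro i hi s hs
    exact ⟨le_trans (w'.mem_Icc i (by omega)) hs.1, le_trans hs.2 (hTi (i + 1) (by omega))⟩
  have hBin : ∀ i < P, ∀ s ∈ Icc (w'.t i) (w'.t (i + 1)), K.In (B s) (w.G i) ∧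
      ∀ v ∈ w'.G i, K.co (B s) (ψ v) = K.co (w'.γ s) v := by
    intro i hi s hs
    obtain ⟨b, hb1, hb2, hb⟩ := exists_tr K (hface i hi) (hinj i hi) (him i hi) (w'.face i hi s hs)
    have : B s = b := (hB s (hmem i hi s hs)).unique hb
    rw [this]
    exact ⟨hb1, hb2⟩
  have hiso : ∀ i < P, ∀ s ∈ Icc (w'.t i) (w'.t (i + 1)), ∀ s' ∈ Icc (w'.t i) (w'.t (i + 1)),
      dist (B s) (B s') = |s - s'| := by
    intro i hi s hs s' hs'
    rw [← w'.geod s (hmem i hi s hs) s' (hmem i hi s' hs')]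
    exact dist_tr K (hinj i hi) (him i hi) (hlen i hi) (w'.face i hi s hs) (w'.face i hi s' hs')
      (hBin i hi s hs).1 (hBin i hi s' hs').1 (hBin i hi s hs).2 (hBin i hi s' hs').2
  have hL1 : ∀ i ≤ P, ∀ s ∈ Icc 0 (w'.t i), dist (B s) (B (w'.t i)) ≤ w'.t i - s := by
    intro i
    induction i with
    | zero =>
      intro _ s hs
      rw [w'.t0] at hs ⊢
      have : s = 0 := le_antisymm hs.2 hs.1
      subst this
      simp
    | succ i ih =>
      intro hi s hs
      have hi' : i < P := by omega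
      by_cases h : s ≤ w'.t i
      · have h1 := ih (by omega) s ⟨hs.1, h⟩
        have h2 := hiso i hi' (w'.t i) ⟨le_rfl, w'.mono i hi'⟩ (w'.t (i + 1)) ⟨w'.mono i hi', le_rfl⟩
        rw [abs_sub_comm, abs_of_nonneg (sub_nonneg.mpr (w'.mono i hi'))] at h2
        calc dist (B s) (B (w'.t (i + 1)))
            ≤ dist (B s) (B (w'.t i)) + dist (B (w'.t i)) (B (w'.t (i + 1))) := dist_triangle _ _ _
          _ ≤ w'.t (i + 1) - s := by rw [h2]; linarith
      · have h' : w'.t i ≤ s := (not_le.mp h).le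
        have h2 := hiso i hi' s ⟨h', hs.2⟩ (w'.t (i + 1)) ⟨w'.mono i hi', le_rfl⟩
        rw [abs_sub_comm, abs_of_nonneg (sub_nonneg.mpr hs.2)] at h2
        exact h2.le
  intro s hs
  have hs0 : dist (B s) (B 0) ≤ s := by
    obtain ⟨i, hi, hsi⟩ := w'.exists_piece hP hs
    have h1 := hL1 i hi.le 0 ⟨le_rfl, w'.mem_Icc i hi.le⟩
    have h2 := hiso i hi s hsi (w'.t i) ⟨le_rfl, w'.mono i hi⟩
    rw [abs_of_nonneg (sub_nonneg.mpr hsi.1)] at h2
    rw [dist_comm] at h1
    calc dist (B s) (B 0) ≤ dist (B s) (B (w'.t i)) + dist (B (w'.t i)) (B 0) := dist_triangle _ _ _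
      _ ≤ s := by rw [h2]; linarith
  have hsT : dist (B s) (B T) ≤ T - s := by
    have h1 := hL1 P le_rfl s (by rw [w'.tP]; exact hs)
    rwa [w'.tP] at h1
  have hR0 : (0 : ℝ) < R := by exact_mod_cast hR
  have hinv : (0 : ℝ) ≤ 1 / R := by positivity
  have hCR : ((d : ℝ) + 1) * L * (1 / R) ≤ C / R := by
    rw [mul_one_div]
    exact div_le_div_of_nonneg_right hC hR0.le
  have hend : ∀ i < P, ∀ r, r ∈ Icc (w'.t i) (w'.t (i + 1)) → K.In (w.γ r) (w.G i) →
      (∀ v ∈ w'.G i, |K.co (w.γ r) (ψ v) - K.co (w'.γ r) v| ≤ 1 / R) → dist (B r) (w.γ r) ≤ C / R := by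
    intro i hi r hr hin hco
    refine le_trans (dist_le_of_co K d hd hL0 hL (hBin i hi r hr).1 hin hinv ?_) hCR
    intro u hu
    have hu' : u ∈ ψ '' (w'.G i : Set V) := by rw [him i hi]; exact hu
    obtain ⟨v, hv, rfl⟩ := hu'
    rw [(hBin i hi r hr).2 v hv, abs_sub_comm]
    exact hco v hv
  have hd0 : dist (B 0) (w.γ 0) ≤ C / R := by
    refine hend 0 hP 0 ?_ ?_ he0
    · have := w'.mono 0 hP
      rw [w'.t0] at this
      rw [w'.t0]
      exact ⟨le_rfl, this⟩
    · apply w.face 0 hP 0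
      have := w.mono 0 hP
      rw [w.t0] at this
      rw [w.t0]
      exact ⟨le_rfl, this⟩
  have hP1 : P - 1 < P := by omega
  have hP2 : P - 1 + 1 = P := by omega
  have hdT : dist (B T) (w.γ T) ≤ C / R := by
    refine hend (P - 1) hP1 T ?_ ?_ heT
    · have := w'.mono (P - 1) hP1
      rw [hP2, w'.tP] at this
      rw [hP2, w'.tP]
      exact ⟨this, le_rfl⟩
    · apply w.face (P - 1) hP1 T
      have := w.mono (P - 1) hP1
      rw [hP2, w.tP] at this
      rw [hP2, w.tP]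
      exact ⟨this, le_rfl⟩
  set e : ℝ := C / R with he
  have he' : 0 ≤ e := by positivity
  have h1 : dist (B s) (w.γ 0) ≤ s + e := by
    calc dist (B s) (w.γ 0) ≤ dist (B s) (B 0) + dist (B 0) (w.γ 0) := dist_triangle _ _ _
      _ ≤ s + e := add_le_add hs0 hd0
  have h2 : dist (B s) (w.γ T) ≤ T - s + e := by
    calc dist (B s) (w.γ T) ≤ dist (B s) (B T) + dist (B T) (w.γ T) := dist_triangle _ _ _
      _ ≤ T - s + e := add_le_add hsT hdT
  refine ⟨B s, ⟨ψ, ?_, (hB s hs).1⟩, ?_⟩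
  · obtain ⟨i, hi, hsi⟩ := w'.exists_piece hP hs
    intro v hv v' hv' h
    refine hinj i hi ?_ ?_ h
    · by_contra hne
      have h0 := (w'.face i hi s hsi).2 v hne
      rw [Set.mem_ofPred_eq, h0] at hv
      exact lt_irrefl _ hv
    · by_contra hne
      have h0 := (w'.face i hi s hsi).2 v' hne
      rw [Set.mem_ofPred_eq, h0] at hv'
      exact lt_irrefl _ hv'
  · have hcn := w.cn (B s) s hs
    have hs1 := hs.1
    have hs2 : 0 ≤ T - s := sub_nonneg.mpr hs.2
    have h3 : dist (B s) (w.γ 0) ^ 2 ≤ (s + e) ^ 2 := pow_le_pow_left₀ dist_nonneg h1 2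
    have h4 : dist (B s) (w.γ T) ^ 2 ≤ (T - s + e) ^ 2 := pow_le_pow_left₀ dist_nonneg h2 2
    have h5 : T * dist (B s) (w.γ s) ^ 2 ≤ T * (e * T + e ^ 2) := by
      calc T * dist (B s) (w.γ s) ^ 2 ≤ (T - s) * dist (B s) (w.γ 0) ^ 2 + s * dist (B s) (w.γ T) ^ 2
            - s * (T - s) * T := hcn
        _ ≤ (T - s) * (s + e) ^ 2 + s * (T - s + e) ^ 2 - s * (T - s) * T := by
            have a1 := mul_le_mul_of_nonneg_left h3 hs2
            have a2 := mul_le_mul_of_nonneg_left h4 hs1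
            linarith
        _ = 4 * (s * (T - s)) * e + e ^ 2 * T := by ring
        _ ≤ T ^ 2 * e + e ^ 2 * T := by
            have a3 : 4 * (s * (T - s)) ≤ T ^ 2 := by nlinarith [sq_nonneg (T - 2 * s)]
            have a4 := mul_le_mul_of_nonneg_right a3 he'
            linarith
        _ = T * (e * T + e ^ 2) := by ring
    exact le_of_mul_le_mul_left h5 hT

end Pool.Agent.ND
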