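import Pool.Agent.Lib.MP_98022b_nd.Few
import Pool.Agent.Lib.MP_98022b_nd.Param
import Pool.Agent.Lib.MP_98022b_nd.WinCls
import Pool.Agent.Lib.MP_98022b_nd.WinTr
import Pool.Agent.Lib.MP_98022b_td.IfaceQ

/-!
# The discretization of a Euclidean complex
-/

set_option autoImplicit false

open Set Filter Topology

namespace Pool.Agent.ND

open Pool.Agent.TD Pool.Agent.GLN

/-- The parameters of the states: threshold sequences. -/
def Thr : Type := {r : ℕ → ℝ // IsThr r}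

/-- Thresholds from numbers in `[0, 1]`. -/
noncomputable def mkThr (x : ℕ → ℝ) : ℕ → ℝ
  | 0 => 1
  | k + 1 => (1 + x k) / 4 ^ (k + 1)

theorem isThr_mkThr {x : ℕ → ℝ} (hx : ∀ k, 0 ≤ x k ∧ x k ≤ 1) : IsThr (mkThr x) := by
  refine ⟨rfl, fun k => ?_, fun k => ?_⟩
  · cases k with
    | zero => simp [mkThr]
    | succ k => have := (hx k).1; simp only [mkThr]; positivity
  · have h1 : mkThr x (k + 1) ≤ 2 / 4 ^ (k + 1) := by
      simp only [mkThr]
      exact div_le_div_of_nonneg_right (by linarith [(hx k).2]) (by positivity)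
    have h2 : (1 : ℝ) / 4 ^ k ≤ mkThr x k := by
      cases k with
      | zero => simp [mkThr]
      | succ k =>
        simp only [mkThr]
        exact div_le_div_of_nonneg_right (by linarith [(hx k).1]) (by positivity)
    have h3 : 2 * ((2 : ℝ) / 4 ^ (k + 1)) = 1 / 4 ^ k := by
      rw [pow_succ]; field_simp; norm_num
    linarith

variable {X V : Type} [MetricSpace X] {K : EComplex X V}

theorem Win.cast {P : ℕ} {T T' : ℝ} {f : ℝ → X} (h : ∃ w : Win K P T, ∀ s, w.γ s = f s)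
    (hT : T = T') : ∃ w : Win K P T', ∀ s, w.γ s = f s := by
  subst hT; exact h

theorem farP_dist {L : ℝ} (hL : 0 ≤ L) (hlip : ∀ x y v, |K.co x v - K.co y v| ≤ L * dist x y)
    {d : ℕ} {Lc : ℝ} (hLc : d * L ≤ Lc) (r : ℕ → ℝ) (e : ℝ) (x y : X) (h : farP K Lc d r e x) :
    farP K Lc d r (e - dist x y) y := by
  intro k h1 h2
  have h3 := h k h1 h2
  have h4 := tail_lipX hlip k x y
  have h5 : k * L * dist x y ≤ Lc * dist x y := mul_le_mul_of_nonneg_right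
    ((mul_le_mul_of_nonneg_right (by exact_mod_cast h2) hL).trans hLc) dist_nonneg
  have h6 := abs_add_le (tail k (K.co x) - tail k (K.co y)) (tail k (K.co y) - r k)
  have h7 : tail k (K.co x) - tail k (K.co y) + (tail k (K.co y) - r k) =
    tail k (K.co x) - r k := by ring
  rw [h7] at h6
  rw [mul_sub]
  linarith

/-- Few changes of the state in a unit of time. -/
theorem few_of_win {geo : X → X → ℝ → X} (hfew : FewWin K geo) {L : ℝ} (hL : 0 ≤ L)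
    (hlip : ∀ x y v, |K.co x v - K.co y v| ≤ L * dist x y) {d : ℕ}
    (hd : ∀ s ∈ K.faces, s.card ≤ d + 1) :
    ∃ M : ℕ, ∀ (r : Thr) (x y : X) (n : ℕ) (s : ℕ → ℝ), (∀ i < n, s i ≤ s (i + 1)) → 0 ≤ s 0 →
    s n ≤ s 0 + 1 → s n ≤ dist x y →
    (∀ i < n, stP K r.1 (endPt geo x y (s i)) ≠ stP K r.1 (endPt geo x y (s (i + 1)))) →
      n ≤ M := by
  obtain ⟨M, hM, hw⟩ := hfew
  refine ⟨2 * ((M * (1 + 1) + 1) + d * (2 * (M * (1 + 1)))), ?_⟩
  intro r x y n s hs h0 hn1 hn2 hne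
  have hmono := mono_le hs 0 n (by omega) le_rfl
  obtain ⟨w, hwγ⟩ := hw x y 1 (s 0) (s n) h0 hmono hn2 (by push_cast; linarith)
  refine w.few hL hlip hd (by positivity) r.2 (s := fun i => s i - s 0)
    (fun i hi => by have := hs i hi; linarith) (by simp) le_rfl fun i hi => ?_
  rw [hwγ, hwγ]
  have e1 : s 0 + (s i - s 0) = s i := by ring
  have e2 : s 0 + (s (i + 1) - s 0) = s (i + 1) := by ring
  rw [e1, e2]
  exact hne i hi

/-- Finitely many thresholds one of which is far. -/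
theorem short_aux {d : ℕ} {Lc : ℝ} (hLc : 0 < Lc) :
    ∃ (n : ℕ) (r : Fin n → Thr) (e : ℝ), 0 < e ∧ ∀ x : X, ∃ j, farP K Lc d (r j).1 e x := by
  have hd0 : (0 : ℝ) < 4 ^ d * (d + 1) := by positivity
  have hx : ∀ j : Fin (d + 1), ∀ _k : ℕ, 0 ≤ ((j : ℕ) : ℝ) / (d + 1) ∧
      ((j : ℕ) : ℝ) / (d + 1) ≤ 1 := by
    intro j _
    refine ⟨by positivity, ?_⟩
    rw [div_le_one (by positivity)]
    have : ((j : ℕ) : ℝ) < ((d + 1 : ℕ) : ℝ) := by exact_mod_cast j.2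
    push_cast at this
    exact this.le
  refine ⟨d + 1, fun j => ⟨mkThr fun _ => ((j : ℕ) : ℝ) / (d + 1), isThr_mkThr (hx j)⟩,
    1 / (2 * Lc * (4 ^ d * (d + 1))), by positivity, fun x => ?_⟩
  by_contra hcon
  push Not at hcon
  have hbad : ∀ j : Fin (d + 1), ∃ k : Fin d, |tail (k + 1) (K.co x) -
      (1 + ((j : ℕ) : ℝ) / (d + 1)) / 4 ^ ((k : ℕ) + 1)| < 1 / (2 * (4 ^ d * (d + 1))) := by
    intro j
    have h1 := hcon j
    unfold farP at h1
    push Not at h1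
    obtain ⟨k, hk1, hk2, hk⟩ := h1
    obtain ⟨k', rfl⟩ : ∃ k', k = k' + 1 := ⟨k - 1, by omega⟩
    refine ⟨⟨k', by omega⟩, ?_⟩
    have h2 : Lc * (1 / (2 * Lc * (4 ^ d * ((d : ℝ) + 1)))) = 1 / (2 * (4 ^ d * (d + 1))) := by
      field_simp
    rw [h2] at hk
    exact hk
  choose g hg using hbad
  obtain ⟨j, j', hne, hgg⟩ := Fintype.exists_ne_map_eq_of_card_lt g (by simp)
  have h1 := hg j
  have h2 := hg j'
  rw [hgg] at h1
  set k := g j' with hk
  have h3 : |(1 + ((j : ℕ) : ℝ) / (d + 1)) / 4 ^ ((k : ℕ) + 1) -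
      (1 + ((j' : ℕ) : ℝ) / (d + 1)) / 4 ^ ((k : ℕ) + 1)| < 1 / (4 ^ d * (d + 1)) := by
    have h4 := abs_sub_lt_iff.1 h1
    have h5 := abs_sub_lt_iff.1 h2
    have h6 : 1 / (2 * (4 ^ d * ((d : ℝ) + 1))) + 1 / (2 * (4 ^ d * (d + 1))) =
      1 / (4 ^ d * (d + 1)) := by field_simp; norm_num
    rw [abs_sub_lt_iff]
    constructor <;> linarith
  have h4 : (1 + ((j : ℕ) : ℝ) / (d + 1)) / 4 ^ ((k : ℕ) + 1) -
      (1 + ((j' : ℕ) : ℝ) / (d + 1)) / 4 ^ ((k : ℕ) + 1) =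
      (((j : ℕ) : ℝ) - ((j' : ℕ) : ℝ)) / (4 ^ ((k : ℕ) + 1) * (d + 1)) := by
    field_simp; ring
  rw [h4, abs_div] at h3
  have h5 : (1 : ℝ) ≤ |((j : ℕ) : ℝ) - ((j' : ℕ) : ℝ)| := by
    have : ((j : ℕ) : ℤ) - ((j' : ℕ) : ℤ) ≠ 0 := by
      intro h
      exact hne (Fin.ext (by omega))
    have h6 : (1 : ℤ) ≤ |((j : ℕ) : ℤ) - ((j' : ℕ) : ℤ)| := Int.one_le_abs this
    exact_mod_cast h6
  have h6 : (4 : ℝ) ^ ((k : ℕ) + 1) ≤ 4 ^ d := pow_le_pow_right₀ (by norm_num) k.2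
  have h7 : |(4 : ℝ) ^ ((k : ℕ) + 1) * ((d : ℝ) + 1)| ≤ 4 ^ d * (d + 1) := by
    rw [abs_of_pos (by positivity)]
    exact mul_le_mul_of_nonneg_right h6 (by positivity)
  have h8 : 1 / (4 ^ d * ((d : ℝ) + 1)) ≤
      |((j : ℕ) : ℝ) - ((j' : ℕ) : ℝ)| / |(4 : ℝ) ^ ((k : ℕ) + 1) * ((d : ℝ) + 1)| :=
    div_le_div₀ (abs_nonneg _) h5 (abs_pos.2 (by positivity)) h7
  linarith

/-- The index lemma. -/
theorem pairs_of_win {geo : X → X → ℝ → X} (hfew : FewWin K geo) {L : ℝ} (hL : 0 < L)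
    (hlip : ∀ x y v, |K.co x v - K.co y v| ≤ L * dist x y) {d : ℕ}
    (hd : ∀ s ∈ K.faces, s.card ≤ d + 1) (hd1 : 1 ≤ d) (hl : K.lens.Finite) {Lc : ℕ}
    (hLc : d * L ≤ Lc) (hLc1 : 1 ≤ Lc) :
    ∃ m A : ℕ, ∀ n : ℕ, 2 ≤ n → ∃ (r : Fin m → Thr) (δ : Fin m → ℝ) (ε : ℝ), 0 < ε ∧
    1 / 2 ^ (n ^ A) ≤ ε ∧ (∀ k, ε ≤ δ k ∧ δ k ≤ 1 / 100) ∧
    ∀ x y : X, 5 * (n : ℝ) ≤ dist x y → ∃ k,
      TR.IsEvents (n : ℝ) (δ k) (fun s => stP K (r k).1 (endPt geo x y s))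
        {s | ¬ farP K Lc d (r k).1 ε (endPt geo x y s)} := by
  classical
  obtain ⟨C1, hC1⟩ := win_classes K d hd hl
  obtain ⟨C2, hC2⟩ := win_close K d hd hl
  obtain ⟨M, hM, hw⟩ := hfew
  obtain ⟨A, hA⟩ := exists_params (C1 + C2) M d Lc hLc1
  refine ⟨8 * (d + 1) + 1, A, fun n hn => ?_⟩
  obtain ⟨N, R, w, δ, e, ε, hN, hR, hδ, hε, heε, hεδ, hδ1, hεA, h2w, hw1, hw2, hCR, hcard⟩ :=
    hA n hn
  have hn0 : (0 : ℝ) < n := by exact_mod_cast (by omega : 0 < n)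
  set P := M * (5 * n + 1) with hP
  have hPpos : 0 < P := by positivity
  have hT : (0 : ℝ) < 5 * n := by positivity
  -- the windows
  have hwin : ∀ ω : {p : X × X // 5 * (n : ℝ) ≤ dist p.1 p.2}, ∃ w : Win K P (5 * n),
      ∀ s, w.γ s = endPt geo ω.1.1 ω.1.2 s := by
    intro ω
    have h1 := hw ω.1.1 ω.1.2 (5 * n) 0 (5 * n) le_rfl hT.le ω.2 (by push_cast; linarith)
    have h2 := Win.cast h1 (sub_zero (5 * (n : ℝ)))
    obtain ⟨w, hw⟩ := h2
    exact ⟨w, fun s => by rw [hw, zero_add]⟩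
  choose W hW using hwin
  obtain ⟨Cl, _, cls, hclc, hcls⟩ := hC1 P R (5 * n) hPpos hR hT.le
  have hLc0 : (0 : ℝ) < Lc := by exact_mod_cast hLc1
  have he0 : 0 ≤ e := by rw [heε]; positivity
  set rv : Fin d → Fin N → ℝ := fun k j => (1 + ((j : ℕ) : ℝ) / N) / 4 ^ ((k : ℕ) + 1) with hrv
  have hN0 : (0 : ℝ) < N := by exact_mod_cast hN
  have hsep : ∀ k j j', j ≠ j' → 2 * w ≤ |rv k j - rv k j'| := by
    intro k j j' hne
    have h4 : rv k j - rv k j' =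
        (((j : ℕ) : ℝ) - ((j' : ℕ) : ℝ)) / (4 ^ ((k : ℕ) + 1) * N) := by
      simp only [hrv]; field_simp; ring
    rw [h4, abs_div]
    have h5 : (1 : ℝ) ≤ |((j : ℕ) : ℝ) - ((j' : ℕ) : ℝ)| := by
      have : ((j : ℕ) : ℤ) - ((j' : ℕ) : ℤ) ≠ 0 := by
        intro h
        exact hne (Fin.ext (by omega))
      have h6 : (1 : ℤ) ≤ |((j : ℕ) : ℤ) - ((j' : ℕ) : ℤ)| := Int.one_le_abs this
      exact_mod_cast h6
    have h6 : (4 : ℝ) ^ ((k : ℕ) + 1) ≤ 4 ^ d := pow_le_pow_right₀ (by norm_num) k.2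
    have h7 : |(4 : ℝ) ^ ((k : ℕ) + 1) * (N : ℝ)| ≤ 4 ^ d * N := by
      rw [abs_of_pos (by positivity)]
      exact mul_le_mul_of_nonneg_right h6 (by positivity)
    exact h2w.trans (div_le_div₀ (abs_nonneg _) h5 (abs_pos.2 (by positivity)) h7)
  obtain ⟨v, hv⟩ := index_abstract (Ω := {p : X × X // 5 * (n : ℝ) ≤ dist p.1 p.2}) (n := d)
    (K := 8 * (d + 1) + 1) (T := 5 * n) (L := Lc) (fun ω => (W ω).t)
    (fun ω k s => tail ((k : ℕ) + 1) (K.co ((W ω).γ s))) (fun ω => cls (W ω))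
    (fun ω k => (W ω).pcc hL.le hlip k.2 hLc) hPpos hδ he0 hLc0.le hw1 hw2 rv hsep
    (by
      intro ω ω' hωω' k s hs
      obtain ⟨b, ⟨ψ, hinj, hψ⟩, hb⟩ := hC2 P R (5 * n) hPpos hR hT _ _ (hcls _ _ hωω') s hs
      obtain ⟨σ, _, hσ, _⟩ := exists_carrier K ((W ω').γ s)
      obtain ⟨σ', _, hσ', _⟩ := exists_carrier K b
      have h1 : tail ((k : ℕ) + 1) (K.co ((W ω').γ s)) = tail ((k : ℕ) + 1) (K.co b) :=
        (tail_transp hσ hσ' hinj hψ _).symm
      rw [h1, abs_sub_comm]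
      have h2 := tail_lipX hlip ((k : ℕ) + 1) b ((W ω).γ s)
      have h3 : dist b ((W ω).γ s) ≤ ε := by
        have hCC : ((C2 : ℝ) / R) ≤ ((C1 + C2 : ℕ) : ℝ) / R := by
          refine div_le_div_of_nonneg_right ?_ (by positivity)
          push_cast; linarith [(Nat.cast_nonneg C1 : (0 : ℝ) ≤ C1)]
        have h0 : (0 : ℝ) ≤ (C2 : ℝ) / R := by positivity
        have h4 : dist b ((W ω).γ s) ^ 2 ≤ ε ^ 2 := by
          refine hb.trans (le_trans ?_ hCR)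
          exact add_le_add (mul_le_mul_of_nonneg_right hCC hT.le) (pow_le_pow_left₀ h0 hCC 2)
        exact le_of_sq_le_sq h4 hε.le
      have h4 : (((k : ℕ) + 1 : ℕ) : ℝ) * L ≤ Lc :=
        (mul_le_mul_of_nonneg_right (by exact_mod_cast k.2) hL.le).trans hLc
      rw [heε]
      refine h2.trans ?_
      exact mul_le_mul h4 h3 dist_nonneg hLc0.le)
    hN (by
      refine lt_of_le_of_lt (Nat.mul_le_mul_right _ (hclc.trans (Nat.mul_le_mul_right _
        (Nat.pow_le_pow_right (by norm_num) ?_)))) hcard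
      exact Nat.mul_le_mul_right _ (by omega))
  -- the thresholds
  set xx : Fin (8 * (d + 1) + 1) → ℕ → ℝ := fun j k =>
    if h : k < d then ((v j ⟨k, h⟩ : ℕ) : ℝ) / N else 0 with hxx
  have hx01 : ∀ j k, 0 ≤ xx j k ∧ xx j k ≤ 1 := by
    intro j k
    simp only [hxx]
    split_ifs with h
    · refine ⟨by positivity, ?_⟩
      rw [div_le_one hN0]
      exact_mod_cast (v j ⟨k, h⟩).2.le
    · exact ⟨le_rfl, zero_le_one⟩
  refine ⟨fun j => ⟨mkThr (xx j), isThr_mkThr (hx01 j)⟩, fun _ => δ, ε, hε, hεA,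
    fun _ => ⟨hεδ, hδ1⟩, fun x y hxy => ?_⟩
  obtain ⟨j, hj⟩ := hv ⟨(x, y), hxy⟩
  refine ⟨j, ?_, ?_⟩
  · -- const
    intro s hs t ht hst hclear
    have hγ := (W ⟨(x, y), hxy⟩).geod
    have hsub : Icc s t ⊆ Icc (0 : ℝ) (5 * n) := fun z hz => ⟨hs.1.trans hz.1, hz.2.trans ht.2⟩
    refine isPreconnected_Icc.induction₂ (s := Icc s t)
      (fun a b => stP K (mkThr (xx j)) (endPt geo x y a) =
        stP K (mkThr (xx j)) (endPt geo x y b)) ?_ ?_ ?_ ⟨le_rfl, hst⟩ ⟨hst, le_rfl⟩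
    · intro a ha
      have hfar : farP K Lc d (mkThr (xx j)) ε (endPt geo x y a) := by
        by_contra hcon
        exact hclear a hcon ha
      have hev : ∀ᶠ b in 𝓝[Icc s t] a, b ∈ Icc s t ∧ |b - a| < ε := by
        refine (eventually_mem_nhdsWithin).and ?_
        refine eventually_nhdsWithin_of_eventually_nhds ?_
        filter_upwards [Metric.ball_mem_nhds a hε] with b hb
        rwa [Metric.mem_ball, Real.dist_eq] at hb
      filter_upwards [hev] with b hb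
      refine (stP_eq_of_far hL hlip hd hd1 hLc (isThr_mkThr (hx01 j)) hfar ?_).symm
      have h1 := hγ a (hsub ha) b (hsub hb.1)
      rw [hW, hW] at h1
      rw [h1, abs_sub_comm]
      exact hb.2
    · intro a b c _ _ _ h1 h2; exact h1.trans h2
    · intro a b _ _ h; exact h.symm
  · -- gap
    have hbadk : ∀ s, ¬ farP K Lc d (mkThr (xx j)) ε (endPt geo x y s) →
        ∃ k : Fin d, |tail ((k : ℕ) + 1) (K.co ((W ⟨(x, y), hxy⟩).γ s)) - rv k (v j k)| < e := by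
      intro s hs
      unfold farP at hs
      push Not at hs
      obtain ⟨k, hk1, hk2, hk⟩ := hs
      obtain ⟨k', rfl⟩ : ∃ k', k = k' + 1 := ⟨k - 1, by omega⟩
      refine ⟨⟨k', by omega⟩, ?_⟩
      rw [hW, heε]
      have h1 : mkThr (xx j) (k' + 1) = rv ⟨k', by omega⟩ (v j ⟨k', by omega⟩) := by
        simp only [mkThr, hxx, hrv]
        rw [dif_pos (by omega)]
      rw [← h1]
      exact hk
    intro s hs s' hs' hsI hsI'
    obtain ⟨k, hk⟩ := hbadk s hs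
    obtain ⟨k', hk'⟩ := hbadk s' hs'
    exact hj s hsI s' hsI' k k' hk hk'

/-- The discretization of a Euclidean complex with finitely many shapes. -/
noncomputable def discQ {Γ : Type} [Group Γ] [MulAction Γ X] [MulAction Γ V]
    {geo : X → X → ℝ → X} (hfew : FewWin K geo) {L : ℝ} (hL : 0 < L)
    (hlip : ∀ x y v, |K.co x v - K.co y v| ≤ L * dist x y)
    (hdiam : ∀ x y s, K.In x s → K.In y s → dist x y ≤ L) {d : ℕ}
    (hd : ∀ s ∈ K.faces, s.card ≤ d + 1) (hd1 : 1 ≤ d) (hl : K.lens.Finite)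
    (hco : ∀ (g : Γ) x v, K.co (g • x) (g • v) = K.co x v) :
    DiscQ Thr Γ X X (fun x y => ⌊dist x y⌋₊) geo where
  st r x := stP K r.1 x
  far r e x := farP K ((⌈d * L⌉₊ + 1 : ℕ) : ℝ) d r.1 e x
  st_smul g r w := stP_smul hco r.2 g w
  far_smul g r e w := by
    unfold farP
    simp only [tail_smul hco]
  far_mono r e e' w h he k h1 h2 := by
    refine le_trans ?_ (h k h1 h2)
    exact mul_le_mul_of_nonneg_left he (by positivity)
  far_dist r e w w' h := by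
    refine farP_dist hL.le hlip ?_ r.1 e w w' h
    push_cast; linarith [Nat.le_ceil (d * L)]
  st_eq r e w w' h hd' := stP_eq_of_far hL hlip hd hd1 (by
    push_cast; linarith [Nat.le_ceil (d * L)]) r.2 h hd'
  short := short_aux (by positivity)
  near := by
    refine ⟨⌈2 * L⌉₊ + 1, fun r r' w w' => ?_⟩
    obtain ⟨s, hs, hs'⟩ := stP_in (K := K) r.2 w
    obtain ⟨t, ht, ht'⟩ := stP_in (K := K) r'.2 w'
    have h1 := hdiam _ _ _ hs hs'
    have h2 := hdiam _ _ _ ht ht'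
    have h3 := Nat.le_ceil (2 * L)
    have h4 := Nat.floor_le (dist_nonneg : 0 ≤ dist (stP K r.1 w) (stP K r'.1 w'))
    have h5 := Nat.lt_floor_add_one (dist (stP K r.1 w) (stP K r'.1 w'))
    have h6 := dist_triangle4 (stP K r.1 w) w w' (stP K r'.1 w')
    have h7 := dist_triangle4 w (stP K r.1 w) (stP K r'.1 w') w'
    rw [dist_comm (stP K r.1 w) w] at h6
    rw [dist_comm (stP K r'.1 w') w'] at h7
    push_cast
    constructor <;> linarith
  few := few_of_win hfew hL.le hlip hd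
  pairs := pairs_of_win hfew hL hlip hd hd1 hl (by
    push_cast; linarith [Nat.le_ceil (d * L)]) (by omega)

end Pool.Agent.ND
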