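import Pool.Agent.Lib.MP_98022b_nd.State
import Pool.Agent.Lib.MP_98022b_nd.Pcc

/-!
# Few changes of the state in bounded time
-/

set_option autoImplicit false

open Set Filter Topology

namespace Pool.Agent.ND

open Pool.Agent.TD

/-- A chain of intervals each of which contains a point of a finite set `Z` has at most
`2 * card Z` members. -/
theorem chain_bound {n : ℕ} {s : ℕ → ℝ} (hs : ∀ i < n, s i < s (i + 1)) (Z : Finset ℝ)
    (hZ : ∀ i < n, ∃ z ∈ Z, z ∈ Icc (s i) (s (i + 1))) : n ≤ 2 * Z.card := by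
  classical
  choose! g hgZ hg using hZ
  have hmono : ∀ i j, i < j → j ≤ n → s i < s j := by
    intro i j hij
    induction j, hij using Nat.le_induction with
    | base => intro h; exact hs i (by omega)
    | succ j hij ih => intro h; exact (ih (by omega)).trans (hs j (by omega))
  have hinj : Set.InjOn (fun i => g (2 * i)) (Finset.range ((n + 1) / 2)) := by
    intro i hi j hj hij
    rw [Finset.coe_range, mem_Iio] at hi hj
    have key : ∀ i j, i < (n + 1) / 2 → j < (n + 1) / 2 → i < j → g (2 * i) ≠ g (2 * j) := by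
      intro i j hi hj hij heq
      have h1 := hg (2 * i) (by omega)
      have h2 := hg (2 * j) (by omega)
      have h3 := hmono (2 * i + 1) (2 * j) (by omega) (by omega)
      rw [heq] at h1
      exact absurd (h1.2.trans_lt h3) (not_lt.2 h2.1)
    rcases lt_trichotomy i j with h | h | h
    · exact absurd hij (key i j hi hj h)
    · exact h
    · exact absurd hij.symm (key j i hj hi h)
  have h1 : ((Finset.range ((n + 1) / 2)).image fun i => g (2 * i)) ⊆ Z := by
    intro z hz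
    obtain ⟨i, hi, rfl⟩ := Finset.mem_image.1 hz
    rw [Finset.mem_range] at hi
    exact hgZ _ (by omega)
  have h2 := Finset.card_le_card h1
  rw [Finset.card_image_of_injOn hinj, Finset.card_range] at h2
  omega

/-- Concave functions on pieces: finitely many points outside of which the truth value of `f < r`
is constant. -/
theorem exists_crossings {P : ℕ} {T L : ℝ} {t : ℕ → ℝ} {f : ℝ → ℝ} (h : Pcc P T L t f)
    (r : ℝ) : ∃ Z : Finset ℝ, Z.card ≤ 2 * P ∧ ∀ i < P, ∀ a b, t i ≤ a → b ≤ t (i + 1) →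
      (∀ z ∈ Z, z ∉ Icc a b) → ∀ s ∈ Icc a b, ∀ s' ∈ Icc a b, f s < r ↔ f s' < r := by
  classical
  set A : ℕ → Set ℝ := fun i => {s | s ∈ Icc (t i) (t (i + 1)) ∧ r ≤ f s} with hA
  have hconv : ∀ i < P, ∀ x ∈ A i, ∀ y ∈ A i, ∀ z, x ≤ z → z ≤ y → z ∈ A i := by
    intro i hi x hx y hy z hxz hzy
    have hc := (h.conc i hi).convex_ge r
    have h1 : z ∈ {x ∈ Icc (t i) (t (i + 1)) | r ≤ f x} :=
      hc.ordConnected.out ⟨hx.1, hx.2⟩ ⟨hy.1, hy.2⟩ ⟨hxz, hzy⟩
    exact h1
  refine ⟨(Finset.range P).image (fun i => sInf (A i)) ∪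
    (Finset.range P).image (fun i => sSup (A i)), ?_, ?_⟩
  · refine (Finset.card_union_le _ _).trans ?_
    have h1 := Finset.card_image_le (s := Finset.range P) (f := fun i => sInf (A i))
    have h2 := Finset.card_image_le (s := Finset.range P) (f := fun i => sSup (A i))
    rw [Finset.card_range] at h1 h2
    omega
  · intro i hi a b ha hb hZ
    have hinf : sInf (A i) ∉ Icc a b := hZ _ (Finset.mem_union_left _
      (Finset.mem_image.2 ⟨i, Finset.mem_range.2 hi, rfl⟩))
    have hsup : sSup (A i) ∉ Icc a b := hZ _ (Finset.mem_union_right _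
      (Finset.mem_image.2 ⟨i, Finset.mem_range.2 hi, rfl⟩))
    have hbb : BddBelow (A i) := ⟨t i, fun s hs => hs.1.1⟩
    have hba : BddAbove (A i) := ⟨t (i + 1), fun s hs => hs.1.2⟩
    have key : ∀ x ∈ Icc a b, ∀ y ∈ Icc a b, r ≤ f x → r ≤ f y := by
      intro x hx y hy hfx
      by_contra hfy
      have hxA : x ∈ A i := ⟨⟨ha.trans hx.1, hx.2.trans hb⟩, hfx⟩
      have hyA : y ∉ A i := fun hh => hfy hh.2
      rcases le_total x y with hxy | hxy
      · refine hsup ⟨hx.1.trans (le_csSup hba hxA), ?_⟩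
        refine le_trans (csSup_le ⟨x, hxA⟩ fun z hz => ?_) hy.2
        by_contra hcon
        push Not at hcon
        exact hyA (hconv i hi x hxA z hz y hxy hcon.le)
      · refine hinf ⟨?_, (csInf_le hbb hxA).trans hx.2⟩
        refine le_trans hy.1 (le_csInf ⟨x, hxA⟩ fun z hz => ?_)
        by_contra hcon
        push Not at hcon
        exact hyA (hconv i hi z hz x hxA y hcon.le hxy)
    intro s hs s' hs'
    rw [← not_iff_not, not_lt, not_lt]
    exact ⟨key s hs s' hs', key s' hs' s hs⟩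

variable {X V : Type} [MetricSpace X] {K : EComplex X V}

/-- The tail sums along a window. -/
theorem Win.pcc {P : ℕ} {T L : ℝ} (hL : 0 ≤ L)
    (hlip : ∀ x y v, |K.co x v - K.co y v| ≤ L * dist x y) (w : Win K P T) {k d : ℕ} (hk : k ≤ d)
    {Lc : ℝ} (hLc : d * L ≤ Lc) : Pcc P T Lc w.t fun s => tail k (K.co (w.γ s)) := by
  refine ⟨w.mono, w.t0, w.tP, fun s hs s' hs' => ?_, fun i hi => ?_⟩
  · have h1 := tail_lipX hlip k (w.γ s) (w.γ s')
    rw [w.geod s hs s' hs'] at h1
    refine h1.trans (mul_le_mul_of_nonneg_right ?_ (abs_nonneg _))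
    exact (mul_le_mul_of_nonneg_right (by exact_mod_cast hk) hL).trans hLc
  · refine tail_concave (fun s _ => ?_) (w.aff i hi) k
    obtain ⟨σ, _, hσ, _⟩ := exists_carrier K (w.γ s)
    exact ⟨σ, hσ⟩

/-- In a window with `P` pieces the state changes at most `2 * ((P + 1) + d * (2 * P))` times. -/
theorem Win.few {P : ℕ} {T L : ℝ} (hL : 0 ≤ L)
    (hlip : ∀ x y v, |K.co x v - K.co y v| ≤ L * dist x y) {d : ℕ}
    (hd : ∀ s ∈ K.faces, s.card ≤ d + 1) (hP : 0 < P) (w : Win K P T) {r : ℕ → ℝ} (hr : IsThr r)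
    {n : ℕ} {s : ℕ → ℝ} (hs : ∀ i < n, s i ≤ s (i + 1)) (h0 : 0 ≤ s 0) (hn : s n ≤ T)
    (hne : ∀ i < n, stP K r (w.γ (s i)) ≠ stP K r (w.γ (s (i + 1)))) :
    n ≤ 2 * ((P + 1) + d * (2 * P)) := by
  classical
  have hpcc : ∀ k ≤ d, Pcc P T (d * L) w.t fun s => tail k (K.co (w.γ s)) := fun k hk =>
    w.pcc hL hlip hk le_rfl
  choose! Z hZc hZ using fun (k : ℕ) (hk : k ≤ d) => exists_crossings (hpcc k hk) (r k)
  set ZZ : Finset ℝ := (Finset.range (P + 1)).image w.t ∪ (Finset.Icc 1 d).biUnion Z with hZZ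
  have hcard : ZZ.card ≤ (P + 1) + d * (2 * P) := by
    refine (Finset.card_union_le _ _).trans ?_
    have h1 := Finset.card_image_le (s := Finset.range (P + 1)) (f := w.t)
    rw [Finset.card_range] at h1
    have h2 : ((Finset.Icc 1 d).biUnion Z).card ≤ d * (2 * P) := by
      refine Finset.card_biUnion_le.trans ?_
      calc ∑ k ∈ Finset.Icc 1 d, (Z k).card ≤ ∑ _k ∈ Finset.Icc 1 d, 2 * P :=
            Finset.sum_le_sum fun k hk => hZc k (Finset.mem_Icc.1 hk).2
        _ = d * (2 * P) := by simp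
    omega
  have hmono : ∀ i j, i ≤ j → j ≤ n → s i ≤ s j := mono_le hs
  have hstrict : ∀ i < n, s i < s (i + 1) := by
    intro i hi
    rcases eq_or_lt_of_le (hs i hi) with h | h
    · exact absurd (by rw [h]) (hne i hi)
    · exact h
  refine (chain_bound hstrict ZZ fun i hi => ?_).trans (by omega)
  by_contra hcon
  push Not at hcon
  have hsi : s i ∈ Icc (0 : ℝ) T := ⟨h0.trans (hmono 0 i (by omega) (by omega)),
    (hmono i n (by omega) le_rfl).trans hn⟩
  have hsi' : s (i + 1) ∈ Icc (0 : ℝ) T := ⟨h0.trans (hmono 0 (i + 1) (by omega) (by omega)),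
    (hmono (i + 1) n (by omega) le_rfl).trans hn⟩
  obtain ⟨j, hj, hsj⟩ := exists_piece w.t0 w.tP hP hsi
  have hsj' : s (i + 1) ≤ w.t (j + 1) := by
    by_contra hlt
    push Not at hlt
    exact hcon (w.t (j + 1)) (Finset.mem_union_left _ (Finset.mem_image.2 ⟨j + 1,
      Finset.mem_range.2 (by omega), rfl⟩)) ⟨hsj.2, hlt.le⟩
  refine hne i hi (st_const hL hlip hr (a := s i) (b := s (i + 1)) ?_ ?_ _
    ⟨le_rfl, hs i hi⟩ _ ⟨hs i hi, le_rfl⟩)
  · intro x hx y hy
    exact w.geod x ⟨hsi.1.trans hx.1, hx.2.trans hsi'.2⟩ y ⟨hsi.1.trans hy.1, hy.2.trans hsi'.2⟩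
  · intro k x hx y hy
    obtain ⟨σ, hσf, hσ, _⟩ := exists_carrier K (w.γ x)
    obtain ⟨σ', hσf', hσ', _⟩ := exists_carrier K (w.γ y)
    rcases Nat.eq_zero_or_pos k with h1 | h1
    · subst h1; rw [hσ.tail_zero, hσ'.tail_zero]
    · rcases le_or_gt k d with h2 | h2
      · refine hZ k h2 j hj (s i) (s (i + 1)) hsj.1 hsj' (fun z hz => ?_) x hx y hy
        exact hcon z (Finset.mem_union_right _ (Finset.mem_biUnion.2 ⟨k,
          Finset.mem_Icc.2 ⟨h1, h2⟩, hz⟩))
      · rw [hσ.tail_big ((hd _ hσf).trans h2), hσ'.tail_big ((hd _ hσf').trans h2)]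

end Pool.Agent.ND
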