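import Pool.Agent.Lib.MP_98022b_nd.Tail
import Pool.Agent.Lib.MP_98022b_nd.WinDefs

/-!
# The states of a Euclidean complex
-/

set_option autoImplicit false

open Set Filter Topology

namespace Pool.Agent.ND

open Pool.Agent.TD

variable {X V : Type} [MetricSpace X] (K : EComplex X V)

theorem exists_carrier (x : X) : ∃ s ∈ K.faces, IsPt s (K.co x) ∧ (∀ v, 0 < K.co x v ↔ v ∈ s) := by
  obtain ⟨s, hs, h1, h2⟩ := K.carrier x
  refine ⟨s, hs, ⟨K.co_nonneg x, fun v hv => ?_, h2⟩, h1⟩
  by_contra hne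
  exact hv ((h1 v).1 (lt_of_le_of_ne (K.co_nonneg x v) (Ne.symm hne)))

/-- The state of `x`: the barycentre of the set of the vertices with large coordinates. -/
def IsSt (r : ℕ → ℝ) (x b : X) : Prop :=
  ∃ σ : Finset V, (∀ v, v ∈ σ ↔ r (lev r (K.co x)) ≤ K.co x v) ∧
    (∀ v ∈ σ, K.co b v = 1 / σ.card) ∧ ∀ v, v ∉ σ → K.co b v = 0

open Classical in
/-- The state of `x`. -/
noncomputable def stP (r : ℕ → ℝ) (x : X) : X :=
  if h : ∃ b, IsSt K r x b then h.choose else x

variable {K}

theorem exists_isSt {r : ℕ → ℝ} (hr : IsThr r) (x : X) :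
    ∃ b, IsSt K r x b ∧ ∃ s, K.In x s ∧ K.In b s := by
  classical
  obtain ⟨s, hs, hpt, hpos⟩ := exists_carrier K x
  obtain ⟨σ, hσs, hne, _, _, hmem⟩ := exists_state hr hpt
  have hσf : σ ∈ K.faces := K.down s hs σ hσs hne
  have hc : (0 : ℝ) < σ.card := by exact_mod_cast Finset.card_pos.2 hne
  obtain ⟨b, hb⟩ := K.exists_pt σ hσf (fun v => if v ∈ σ then 1 / σ.card else 0) (by
    intro v; split_ifs <;> positivity) (by intro v hv; simp [hv]) (by
    rw [Finset.sum_ite_mem]
    simp only [Finset.inter_self, Finset.sum_const, nsmul_eq_mul]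
    field_simp)
  refine ⟨b, ⟨σ, hmem, fun v hv => by rw [hb]; simp [hv], fun v hv => by rw [hb]; simp [hv]⟩,
    s, ⟨hs, hpt.supp⟩, ⟨hs, fun v hv => ?_⟩⟩
  rw [hb]
  have : v ∉ σ := fun h => hv (hσs h)
  simp [this]

theorem isSt_unique {r : ℕ → ℝ} {x y b b' : X} (h : IsSt K r x b) (h' : IsSt K r y b')
    (hxy : ∀ v, r (lev r (K.co x)) ≤ K.co x v ↔ r (lev r (K.co y)) ≤ K.co y v) : b = b' := by
  obtain ⟨σ, h1, h2, h3⟩ := h
  obtain ⟨σ', h1', h2', h3'⟩ := h'
  have he : σ = σ' := by
    ext v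
    rw [h1, h1', hxy]
  subst he
  refine K.inj _ _ (funext fun v => ?_)
  by_cases hv : v ∈ σ
  · rw [h2 v hv, h2' v hv]
  · rw [h3 v hv, h3' v hv]

theorem stP_spec {r : ℕ → ℝ} (hr : IsThr r) (x : X) : IsSt K r x (stP K r x) := by
  obtain ⟨b, hb, _⟩ := exists_isSt (K := K) hr x
  have h : ∃ b, IsSt K r x b := ⟨b, hb⟩
  unfold stP
  rw [dif_pos h]
  exact h.choose_spec

theorem stP_in {r : ℕ → ℝ} (hr : IsThr r) (x : X) : ∃ s, K.In x s ∧ K.In (stP K r x) s := by
  obtain ⟨b, hb, hs⟩ := exists_isSt (K := K) hr x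
  have : b = stP K r x := isSt_unique hb (stP_spec hr x) fun v => Iff.rfl
  rw [← this]; exact hs

theorem stP_eq {r : ℕ → ℝ} (hr : IsThr r) {x y : X}
    (hxy : ∀ v, r (lev r (K.co x)) ≤ K.co x v ↔ r (lev r (K.co y)) ≤ K.co y v) :
    stP K r x = stP K r y :=
  isSt_unique (stP_spec hr x) (stP_spec hr y) hxy

section act

variable {Γ : Type} [Group Γ] [MulAction Γ X] [MulAction Γ V]

theorem tail_smul (hco : ∀ (g : Γ) x v, K.co (g • x) (g • v) = K.co x v) (g : Γ) (x : X) (k : ℕ) :
    tail k (K.co (g • x)) = tail k (K.co x) := by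
  obtain ⟨s, _, hs, _⟩ := exists_carrier K x
  obtain ⟨s', _, hs', _⟩ := exists_carrier K (g • x)
  exact tail_transp hs hs' (ψ := fun v => g • v) (fun a _ b _ hab => smul_left_cancel g hab)
    (fun v _ => hco g x v) k

theorem lev_smul (hco : ∀ (g : Γ) x v, K.co (g • x) (g • v) = K.co x v) (g : Γ) (x : X)
    (r : ℕ → ℝ) : lev r (K.co (g • x)) = lev r (K.co x) :=
  lev_congr fun k => by rw [tail_smul hco]

theorem stP_smul (hco : ∀ (g : Γ) x v, K.co (g • x) (g • v) = K.co x v) {r : ℕ → ℝ}
    (hr : IsThr r) (g : Γ) (x : X) : stP K r (g • x) = g • stP K r x := by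
  classical
  obtain ⟨σ, h1, h2, h3⟩ := stP_spec (K := K) hr x
  have hco' : ∀ y v, K.co (g • y) v = K.co y (g⁻¹ • v) := by
    intro y v
    rw [← hco g y (g⁻¹ • v), smul_inv_smul]
  have hi : ∀ v, v ∈ σ.image (fun v => g • v) ↔ g⁻¹ • v ∈ σ := by
    intro v
    rw [Finset.mem_image]
    constructor
    · rintro ⟨u, hu, rfl⟩
      rwa [inv_smul_smul]
    · intro h
      exact ⟨_, h, smul_inv_smul _ _⟩
  have hc : (σ.image fun v => g • v).card = σ.card :=
    Finset.card_image_of_injective _ fun a b hab => smul_left_cancel g hab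
  have hst : IsSt K r (g • x) (g • stP K r x) := by
    refine ⟨σ.image fun v => g • v, fun v => ?_, fun v hv => ?_, fun v hv => ?_⟩
    · rw [hi, h1, lev_smul hco, hco']
    · rw [hco', h2 _ ((hi v).1 hv), hc]
    · rw [hco']
      exact h3 _ fun h => hv ((hi v).2 h)
  exact isSt_unique (stP_spec hr (g • x)) hst fun v => Iff.rfl

end act

theorem tail_lipX {L : ℝ} (hlip : ∀ x y v, |K.co x v - K.co y v| ≤ L * dist x y) (k : ℕ) (x y : X) :
    |tail k (K.co x) - tail k (K.co y)| ≤ k * L * dist x y := by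
  obtain ⟨s, _, hs, _⟩ := exists_carrier K x
  obtain ⟨s', _, hs', _⟩ := exists_carrier K y
  have := hs.tail_lip hs' (k := k) (hlip x y)
  rw [mul_assoc]; exact this

/-- The state is constant if the truth values of `tail k < r k` are constant. -/
theorem st_const {L : ℝ} (hL : 0 ≤ L) (hlip : ∀ x y v, |K.co x v - K.co y v| ≤ L * dist x y)
    {r : ℕ → ℝ} (hr : IsThr r) {γ : ℝ → X} {a b : ℝ}
    (hγ : ∀ s ∈ Icc a b, ∀ s' ∈ Icc a b, dist (γ s) (γ s') = |s - s'|)
    (htr : ∀ k, ∀ s ∈ Icc a b, ∀ s' ∈ Icc a b, tail k (K.co (γ s)) < r k ↔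
      tail k (K.co (γ s')) < r k) :
    ∀ s ∈ Icc a b, ∀ s' ∈ Icc a b, stP K r (γ s) = stP K r (γ s') := by
  intro s hs s' hs'
  refine isPreconnected_Icc.induction₂ (fun x y => stP K r (γ x) = stP K r (γ y)) ?_ ?_ ?_ hs hs'
  · intro x hx
    obtain ⟨σ, _, hσ, _⟩ := exists_carrier K (γ x)
    have hlt := lev_spec hr hσ
    set ℓ := lev r (K.co (γ x)) with hℓ
    set m := r ℓ - tail ℓ (K.co (γ x)) with hm
    have hmpos : 0 < m := by linarith
    have hρ : 0 < m / (ℓ * L + 1) := by positivity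
    have hev : ∀ᶠ y in 𝓝[Icc a b] x, y ∈ Icc a b ∧ |y - x| < m / (ℓ * L + 1) := by
      refine (eventually_mem_nhdsWithin).and ?_
      refine eventually_nhdsWithin_of_eventually_nhds ?_
      have := Metric.ball_mem_nhds x hρ
      filter_upwards [this] with y hy
      rwa [Metric.mem_ball, Real.dist_eq] at hy
    filter_upwards [hev] with y hy
    obtain ⟨σ', _, hσ', _⟩ := exists_carrier K (γ y)
    refine stP_eq hr fun v => ?_
    refine state_congr hr hσ hσ' (fun k => htr k x hx y hy.1) (c := L * |x - y|)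
      (by positivity) (fun v => ?_) ?_ v
    · have := hlip (γ x) (γ y) v
      rwa [hγ x hx y hy.1] at this
    · rw [← hℓ]
      have h1 : (ℓ * L + 1) * |y - x| < m := by
        rw [lt_div_iff₀ (by positivity)] at hy
        linarith [hy.2]
      have h2 : ℓ * (L * |x - y|) ≤ (ℓ * L + 1) * |y - x| := by
        rw [abs_sub_comm x y]
        nlinarith [abs_nonneg (y - x)]
      linarith
  · intro x y z _ _ _ h1 h2; exact h1.trans h2
  · intro x y _ _ h; exact h.symm

/-- `x` is far from the thresholds. -/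
def farP (K : EComplex X V) (Lc : ℝ) (d : ℕ) (r : ℕ → ℝ) (e : ℝ) (x : X) : Prop :=
  ∀ k, 1 ≤ k → k ≤ d → Lc * e ≤ |tail k (K.co x) - r k|

/-- The state is the same at near points. -/
theorem stP_eq_of_far {L : ℝ} (hL : 0 < L) (hlip : ∀ x y v, |K.co x v - K.co y v| ≤ L * dist x y)
    {d : ℕ} (hd : ∀ s ∈ K.faces, s.card ≤ d + 1) (hd1 : 1 ≤ d) {Lc : ℝ} (hLc : d * L ≤ Lc)
    {r : ℕ → ℝ} (hr : IsThr r) {e : ℝ} {x y : X} (hfar : farP K Lc d r e x) (hxy : dist x y < e) :
    stP K r y = stP K r x := by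
  classical
  obtain ⟨s, hs, hpt, hpos⟩ := exists_carrier K x
  obtain ⟨s', hs', hpt', hpos'⟩ := exists_carrier K y
  have he : 0 < e := dist_nonneg.trans_lt hxy
  have hL1 : 0 < Lc := lt_of_lt_of_le (by positivity) hLc
  have hLe : L * dist x y < Lc * e := by
    have h1 : L ≤ Lc := le_trans (by
      have : (1 : ℝ) ≤ d := by exact_mod_cast hd1
      nlinarith) hLc
    calc L * dist x y ≤ Lc * dist x y := mul_le_mul_of_nonneg_right h1 dist_nonneg
      _ < Lc * e := mul_lt_mul_of_pos_left hxy hL1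
  -- the truth values agree
  have htr : ∀ k, tail k (K.co x) < r k ↔ tail k (K.co y) < r k := by
    intro k
    rcases Nat.eq_zero_or_pos k with h0 | h0
    · subst h0
      rw [hpt.tail_zero, hpt'.tail_zero]
    · rcases le_or_gt k d with h1 | h1
      · have h2 := hfar k h0 h1
        have h3 := tail_lipX hlip k x y
        have h4 : k * L * dist x y < Lc * e := by
          have h5 : (k : ℝ) * L ≤ Lc := le_trans (mul_le_mul_of_nonneg_right
            (by exact_mod_cast h1) hL.le) hLc
          calc k * L * dist x y ≤ Lc * dist x y := mul_le_mul_of_nonneg_right h5 dist_nonneg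
            _ < Lc * e := mul_lt_mul_of_pos_left hxy hL1
        have h5 := abs_lt.1 (h3.trans_lt h4)
        constructor
        · intro h6
          rw [abs_of_neg (by linarith)] at h2
          linarith
        · intro h6
          by_contra h7
          push Not at h7
          rw [abs_of_nonneg (by linarith)] at h2
          linarith
      · rw [hpt.tail_big ((hd s hs).trans h1), hpt'.tail_big ((hd s' hs').trans h1)]
  have hll := lev_congr htr
  symm
  refine stP_eq hr fun v => ?_
  rcases le_or_gt (lev r (K.co x)) d with h1 | h1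
  · -- level at most `d`
    refine state_congr hr hpt hpt' htr (c := L * dist x y) (by positivity) (hlip x y) ?_ v
    have hlt := lev_spec hr hpt
    have h0 : 1 ≤ lev r (K.co x) := by
      by_contra hcon
      have h0 : lev r (K.co x) = 0 := by omega
      rw [h0, hpt.tail_zero, hr.zero] at hlt
      exact lt_irrefl _ hlt
    have h2 := hfar _ h0 h1
    rw [abs_of_neg (by linarith)] at h2
    have h4 : (lev r (K.co x) : ℝ) * (L * dist x y) < Lc * e := by
      have h5 : (lev r (K.co x) : ℝ) * L ≤ Lc := le_trans (mul_le_mul_of_nonneg_right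
        (by exact_mod_cast h1) hL.le) hLc
      calc (lev r (K.co x) : ℝ) * (L * dist x y) = lev r (K.co x) * L * dist x y := by ring
        _ ≤ Lc * dist x y := mul_le_mul_of_nonneg_right h5 dist_nonneg
        _ < Lc * e := mul_lt_mul_of_pos_left hxy hL1
    linarith
  · -- level `d + 1`
    have h2 : s.card = d + 1 := by
      have := lev_le hr hpt
      have := hd s hs
      omega
    have h3 : r d ≤ tail d (K.co x) := lev_min h1
    have h4 := hfar d hd1 le_rfl
    rw [abs_of_nonneg (by linarith)] at h4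
    have h5 : ∀ u ∈ s, Lc * e + r d ≤ K.co x u := by
      intro u hu
      have h6 : tail d (K.co x) ≤ gs (s.erase u) (K.co x) := hpt.tail_le (by
        rw [Finset.card_erase_of_mem hu]; omega)
      have h7 : gs (s.erase u) (K.co x) = K.co x u := by
        unfold gs
        have := Finset.sum_erase_add s (K.co x) hu
        rw [hpt.sum] at this
        linarith
      linarith
    have h6 : s ⊆ s' := by
      intro u hu
      rw [← hpos']
      have h7 := h5 u hu
      have h8 := (abs_le.1 (hlip x y u)).2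
      have h9 := hr.pos d
      linarith
    have h7 : s' = s := by
      symm
      refine Finset.eq_of_subset_of_card_le h6 ?_
      rw [h2]; exact hd s' hs'
    subst h7
    have hgx : gs s' (K.co x) = 0 := by unfold gs; rw [hpt.sum]; ring
    have hgy : gs s' (K.co y) = 0 := by unfold gs; rw [hpt'.sum]; ring
    rw [← mem_state hr hpt (σ := s') (by omega) (by rw [hgx]; exact hr.pos _) v,
      ← mem_state hr hpt' (σ := s') (by rw [← hll]; omega) (by rw [hgy]; exact hr.pos _) v]

end Pool.Agent.ND
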